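import Pool.Agent.H29.EX.Targets
import Pool.Agent.H85.DP.BX2

/-!
# Two dilations: the weighted local averages over a small set, test polynomials of dilation `r`
-/

set_option autoImplicit false

open Complex MeasureTheory Set Pool.Agent.H25.DL Pool.Agent.H25.DP Pool.Agent.H29.EX
open scoped ENNReal

namespace Pool.Agent.H19.EX

lemma continuous_TQ (a : ℝ) (X : ℕ) (ρ : ℕ → ℂ) : Continuous (TQ a X ρ) := by
  unfold TQ
  exact continuous_finsetSum _ fun p _ =>
    continuous_const.mul ((continuous_en p).comp (continuous_const.mul continuous_id))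

theorem pf_BXR (h : T_BER) : T_BXR := by
  intro ι _ f Y d t₀ r D ω₀ ρ₀ ε hY hr hr' hD hD1 hD2 hD3 hω₀ hω₀' hρ₀ hρ₀' hρ₀'' hε
  obtain ⟨c, T₁, hc, hT₁⟩ := h ι f r D ω₀ ρ₀ ε hr hr' hD hD1 hD2 hD3 hω₀ hω₀' hρ₀ hρ₀' hρ₀'' hε
  refine ⟨c / 2, by positivity, fun β hβ => ?_⟩
  obtain ⟨ω, B₁, η, CY, hω, hCY⟩ := hY.main
  -- thresholds
  obtain ⟨T₂, hT₂⟩ : ∃ T₂ : ℝ, ∀ T : ℝ, T₂ ≤ T → 2 ≤ T ^ (c / 2) := by
    have h1 := (tendsto_rpow_atTop (show 0 < c / 2 by positivity)).eventually_ge_atTop 2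
    rw [Filter.eventually_atTop] at h1
    exact h1
  obtain ⟨T₃, hT₃⟩ : ∃ T₃ : ℝ, ∀ T : ℝ, T₃ ≤ T → max t₀ |CY| ≤ T - Real.log T := by
    have h1 : Filter.Tendsto (fun T : ℝ => T - Real.log T) Filter.atTop Filter.atTop := by
      have h2 : Filter.Tendsto (fun T : ℝ => T / 2) Filter.atTop Filter.atTop :=
        Filter.tendsto_id.atTop_div_const two_pos
      refine Filter.tendsto_atTop_mono' _ ?_ h2
      filter_upwards [Filter.eventually_ge_atTop 16] with T hT
      have h3 : Real.log T = 2 * Real.log (Real.sqrt T) := by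
        rw [Real.log_sqrt (by linarith)]; ring
      have h4 := Real.log_le_sub_one_of_pos (Real.sqrt_pos.2 (show (0 : ℝ) < T by linarith))
      have h5 : Real.sqrt T * Real.sqrt T = T := Real.mul_self_sqrt (by linarith)
      have h6 : 4 ≤ Real.sqrt T := by
        rw [show (4 : ℝ) = Real.sqrt 16 by
          rw [show (16 : ℝ) = 4 ^ 2 by norm_num, Real.sqrt_sq (by norm_num)]]
        exact Real.sqrt_le_sqrt hT
      nlinarith
    have h2 := h1.eventually_ge_atTop (max t₀ |CY|)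
    rw [Filter.eventually_atTop] at h2
    exact h2
  refine ⟨max (max T₁ T₂) (max T₃ 3), fun T hT j hj X ρ ξ hX hρ E hE hEs hvE => ?_⟩
  have hTT₁ : T₁ ≤ T := (le_max_left _ _).trans ((le_max_left _ _).trans hT)
  have hTT₂ : T₂ ≤ T := (le_max_right _ _).trans ((le_max_left _ _).trans hT)
  have hTT₃ : T₃ ≤ T := (le_max_left _ _).trans ((le_max_right _ _).trans hT)
  have hT3 : 3 ≤ T := (le_max_right _ _).trans ((le_max_right _ _).trans hT)
  have hT0 : 0 < T := by linarith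
  have hR1 : 1 ≤ Real.log T := by
    rw [Real.le_log_iff_exp_le hT0]
    have := Real.exp_one_lt_d9
    linarith
  have hTl := hT₃ T hTT₃
  have hPc : Continuous fun t : ℝ => Pj f j (1 / 2 + t * I) := by
    unfold Pj
    exact continuous_finsetProd _ fun l _ => B_continuous (f l) (j l)
  have hY2 : ∀ t : ℝ, T - Real.log T ≤ t → ‖Y (1 / 2 + t * I)‖ ≤ 2 := by
    intro t ht
    have h1 : max t₀ |CY| ≤ t := hTl.trans ht
    have h2 := hCY t ((le_max_left _ _).trans h1)
    have ht1 : 1 ≤ t := hY.one_le.trans ((le_max_left _ _).trans h1)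
    have h3 : CY / t ≤ 1 := by
      rw [div_le_one (by linarith)]
      exact (le_abs_self _).trans ((le_max_right _ _).trans h1)
    have h5 : ‖ω * cexp ((d * t * Real.log t + B₁ * t + η * Real.log t : ℝ) * I)‖ = 1 := by
      rw [norm_mul, hω, Complex.norm_exp_ofReal_mul_I, one_mul]
    have h6 := norm_le_norm_add_norm_sub' (Y (1 / 2 + t * I))
      (ω * cexp ((d * t * Real.log t + B₁ * t + η * Real.log t : ℝ) * I))
    rw [h5] at h6
    linarith
  have hM0 : 0 ≤ T ^ (1 - c) := Real.rpow_nonneg hT0.le _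
  have hb : ∀ y : ℝ, |y| ≤ Real.log T →
      ∫ u in E, ‖Pj f j (1 / 2 + (u + y : ℝ) * I)‖ * ‖TQ r X ρ u‖ ≤ T ^ (1 - c) := fun y hy =>
    hT₁ T hTT₁ j hj X ρ y hX hρ hy E hE hEs hvE
  have hfin : 2 * T ^ (1 - c) ≤ T ^ (1 - c / 2) := by
    have h1 : T ^ (1 - c / 2) = T ^ (1 - c) * T ^ (c / 2) := by
      rw [← Real.rpow_add hT0]
      congr 1
      ring
    rw [h1]
    have := hT₂ T hTT₂
    nlinarith
  constructor
  · have h1 := Pool.Agent.H85.DP.BX2.gen (P := fun t : ℝ => Pj f j (1 / 2 + t * I))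
      (w := TQ r X ρ) hPc (continuous_TQ r X ρ) (ξ := ξ) hβ
      (by linarith) hM0 hE hEs hb
      (fun u y => Pj f j (1 / 2 + (u + y : ℝ) * I) * Y (1 / 2 + (u + y : ℝ) * I)) (by
        intro u hu y hy
        rw [norm_mul, mul_comm]
        have h2 : T - Real.log T ≤ u + y := by
          have := (hEs hu).1
          have := hy.1
          linarith
        have h3 := hY2 (u + y) h2
        gcongr)
    exact h1.trans hfin
  · have h1 := Pool.Agent.H85.DP.BX2.gen (P := fun t : ℝ => Pj f j (1 / 2 + t * I))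
      (w := TQ r X ρ) hPc (continuous_TQ r X ρ) (ξ := ξ) hβ
      (by linarith) hM0 hE hEs hb
      (fun u y => (starRingEnd ℂ) (Pj f j (1 / 2 + (u + y : ℝ) * I))) (by
        intro u hu y hy
        rw [RCLike.norm_conj]
        have := norm_nonneg (Pj f j (1 / 2 + (u + y : ℝ) * I))
        show ‖Pj f j (1 / 2 + (u + y : ℝ) * I)‖ ≤ 2 * ‖Pj f j (1 / 2 + (u + y : ℝ) * I)‖
        linarith)
    exact h1.trans hfin

end Pool.Agent.H19.EX
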