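import Pool.Agent.H98.EX.KTargets
import Pool.Agent.H75.CE.CBT

/-!
# CBX: the chains of low boxes only (MP_65efe8_pr), adapted from the row CBT of helper75
-/

set_option autoImplicit false

open MeasureTheory ProbabilityTheory Filter Topology
open scoped ENNReal
open Pool.Agent.H95 Pool.Agent.H95.Cop Pool.Agent.H96.Cop Pool.Agent.H98.EX
open Pool.Agent.H61.CE (sumw sum_wq wq_nonneg)
open Pool.Agent.H75.CE (cf cf_nonneg cf_le_one bj bj_nonneg bj_le_two bj_pow sum_bj)
open Pool.Agent.H99.CE (BX w1 cq tb Gf Hf Kd ld mx ab eb TT FL EE lg Reg wq)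

namespace Pool.Agent.H19.EX

/-- the contribution of the kernel to the coefficient of the starts -/
noncomputable def Sx (α P η e : ℝ) (M p : ℕ) : ℝ :=
  e * P * ∑ i ∈ Finset.range (min M p), wq α (p - i) * cf η M (p - i)

/-- the coefficient of the starts as a real number -/
noncomputable def Ax (α P η e : ℝ) (M p : ℕ) : ℝ := (if p < M then (1 : ℝ) else 0) + Sx α P η e M p

lemma Sx_nonneg {α P η e : ℝ} (he : 0 < e) (hP : 0 ≤ P) (hη : 0 ≤ η) (M p : ℕ) :
    0 ≤ Sx α P η e M p :=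
  mul_nonneg (by positivity)
    (Finset.sum_nonneg fun i _ => mul_nonneg (wq_nonneg _ _) (cf_nonneg hη _ _))

lemma Ax_nonneg {α P η e : ℝ} (he : 0 < e) (hP : 0 ≤ P) (hη : 0 ≤ η) (M p : ℕ) :
    0 ≤ Ax α P η e M p := by
  refine add_nonneg ?_ (Sx_nonneg he hP hη M p)
  split_ifs <;> norm_num

lemma abx_eq {α t P η e : ℝ} (he : 0 < e) (ht : 0 < t) (hP : 0 ≤ P) (hη : 0 ≤ η) (M p : ℕ) :
    ab (ENNReal.ofReal (e * P * t)) (Kd α t η M) M p = ENNReal.ofReal (Ax α P η e M p) := by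
  unfold ab
  have e1 : ∑ i ∈ Finset.range (min M p), Kd α t η M (p - i) =
      ENNReal.ofReal (∑ i ∈ Finset.range (min M p), wq α (p - i) / t * cf η M (p - i)) := by
    rw [ENNReal.ofReal_sum_of_nonneg]
    · rfl
    · intro i _
      exact mul_nonneg (div_nonneg (wq_nonneg _ _) ht.le) (cf_nonneg hη _ _)
  have e2 : (if p < M then (1 : ℝ≥0∞) else 0) =
      ENNReal.ofReal (if p < M then (1 : ℝ) else 0) := by
    split_ifs <;> simp
  rw [e1, e2, ← ENNReal.ofReal_mul (by positivity), ← ENNReal.ofReal_add]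
  · congr 1
    unfold Ax Sx
    congr 1
    rw [mul_assoc, Finset.mul_sum]
    congr 1
    refine Finset.sum_congr rfl fun i _ => ?_
    field_simp
  · split_ifs <;> norm_num
  · exact mul_nonneg (by positivity) (Finset.sum_nonneg fun i _ =>
      mul_nonneg (div_nonneg (wq_nonneg _ _) ht.le) (cf_nonneg hη _ _))

lemma Sx_le {α P η e : ℝ} (he : 0 < e) (hα : 1 / 2 ≤ α) (hP : 0 ≤ P) (hη1 : η ≤ 1)
    (M p : ℕ) : Sx α P η e M p ≤ 4 * e * P := by
  have hα0 : 0 < α := by linarith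
  have e1 : ∑ i ∈ Finset.range (min M p), wq α (p - i) * cf η M (p - i) ≤ 2 + 1 / α := by
    refine (Finset.sum_le_sum fun i _ => ?_).trans (sum_wq hα0 M p)
    exact mul_le_of_le_one_right (wq_nonneg _ _) (cf_le_one hη1 _ _)
  have e2 : Sx α P η e M p ≤ e * P * (2 + 1 / α) := mul_le_mul_of_nonneg_left e1 (by positivity)
  refine e2.trans ?_
  have e3 : 1 / α ≤ 2 := by
    rw [div_le_iff₀ hα0]
    linarith
  have e4 : 0 ≤ e * P := by positivity
  nlinarith

lemma Sx_far {α P η e : ℝ} (he : 0 < e) (hα : 0 < α) (hP : 0 ≤ P) (hη0 : 0 ≤ η)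
    (M : ℕ) (hM : 1 ≤ M) (j p : ℕ) (hp : (j + 2) * M ≤ p) :
    Sx α P η e M p ≤ e * P * η * ((j : ℝ) + 1) ^ (-(1 + α)) := by
  have hM' : (1 : ℝ) ≤ M := by exact_mod_cast hM
  have hp2 : 2 * M ≤ p := le_trans (Nat.mul_le_mul_right _ (by omega)) hp
  have hjM : (0 : ℝ) < ((j : ℝ) + 1) * M := by positivity
  have e4 : ∀ i ∈ Finset.range (min M p), wq α (p - i) * cf η M (p - i) ≤
      η * (((j : ℝ) + 1) * M) ^ (-(1 + α)) := by
    intro i hi
    have hi' : i < M := (Finset.mem_range.1 hi).trans_le (min_le_left _ _)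
    have e5 : cf η M (p - i) = η := by
      unfold cf
      rw [if_neg (by omega)]
    rw [e5, mul_comm]
    refine mul_le_mul_of_nonneg_left ?_ hη0
    unfold wq
    have e6 : max (p - i - 1) 1 = p - i - 1 := by omega
    rw [e6]
    refine Real.rpow_le_rpow_of_nonpos hjM ?_ (by linarith)
    have e7 : (j + 1) * M ≤ p - i - 1 := by
      have e8 : (j + 2) * M = (j + 1) * M + M := by ring
      omega
    exact_mod_cast e7
  have e5 : ∑ i ∈ Finset.range (min M p), wq α (p - i) * cf η M (p - i) ≤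
      M * (η * (((j : ℝ) + 1) * M) ^ (-(1 + α))) := by
    refine (Finset.sum_le_sum e4).trans ?_
    rw [Finset.sum_const, Finset.card_range, nsmul_eq_mul]
    refine mul_le_mul_of_nonneg_right ?_ (by positivity)
    exact_mod_cast min_le_left _ _
  have e6 : (M : ℝ) * (((j : ℝ) + 1) * M) ^ (-(1 + α)) ≤ ((j : ℝ) + 1) ^ (-(1 + α)) := by
    rw [Real.mul_rpow (by positivity) (by positivity)]
    have e7 : (M : ℝ) * (M : ℝ) ^ (-(1 + α)) ≤ 1 := by
      have h1 : (M : ℝ) ^ (-(1 + α)) ≤ (M : ℝ) ^ (-(1 : ℝ)) :=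
        Real.rpow_le_rpow_of_exponent_le hM' (by linarith)
      rw [Real.rpow_neg_one] at h1
      calc (M : ℝ) * (M : ℝ) ^ (-(1 + α)) ≤ (M : ℝ) * (M : ℝ)⁻¹ :=
            mul_le_mul_of_nonneg_left h1 (by positivity)
        _ = 1 := mul_inv_cancel₀ (by positivity)
    calc (M : ℝ) * (((j : ℝ) + 1) ^ (-(1 + α)) * (M : ℝ) ^ (-(1 + α))) =
          ((j : ℝ) + 1) ^ (-(1 + α)) * ((M : ℝ) * (M : ℝ) ^ (-(1 + α))) := by ring
      _ ≤ ((j : ℝ) + 1) ^ (-(1 + α)) * 1 := mul_le_mul_of_nonneg_left e7 (by positivity)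
      _ = _ := mul_one _
  unfold Sx
  calc e * P * ∑ i ∈ Finset.range (min M p), wq α (p - i) * cf η M (p - i) ≤
        e * P * (M * (η * (((j : ℝ) + 1) * M) ^ (-(1 + α)))) :=
        mul_le_mul_of_nonneg_left e5 (by positivity)
    _ = e * P * η * (M * (((j : ℝ) + 1) * M) ^ (-(1 + α))) := by ring
    _ ≤ e * P * η * ((j : ℝ) + 1) ^ (-(1 + α)) :=
        mul_le_mul_of_nonneg_left e6 (by positivity)

lemma Ax_le {α P η e : ℝ} (he : 0 < e) (hα : 1 / 2 ≤ α) (hP : 0 ≤ P) (hP2 : 4 * e * P ≤ 1)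
    (hη0 : 0 ≤ η) (hη1 : η ≤ 1) (M : ℕ) (hM : 1 ≤ M) (j p : ℕ) (hp : p ∈ TT M j) :
    Ax α P η e M p ≤ bj α j := by
  unfold TT at hp
  rw [Finset.mem_Ico] at hp
  have h1 := Sx_le he hα hP hη1 M p
  have hα0 : 0 < α := by linarith
  unfold Ax
  rcases j with _ | _ | j
  · rw [if_pos (by simpa using hp.2)]
    simp only [bj]
    linarith
  · rw [if_neg (by have := hp.1; simp at this; omega)]
    simp only [bj]
    linarith
  · have hpM : (j + 2) * M ≤ p := by simpa using hp.1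
    have h2 : ¬ p < M := by
      have : 1 * M ≤ (j + 2) * M := Nat.mul_le_mul_right _ (by omega)
      omega
    rw [if_neg h2, zero_add]
    refine (Sx_far he hα0 hP hη0 M hM j p hpM).trans ?_
    simp only [bj]
    refine mul_le_of_le_one_left (by positivity) ?_
    have h3 : e * P ≤ 1 := by
      have h5 : 0 ≤ e * P := by positivity
      linarith
    calc e * P * η ≤ e * P * 1 := mul_le_mul_of_nonneg_left hη1 (by positivity)
      _ ≤ 1 := by linarith

theorem pf_CBX : T_CBX := by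
  intro α t θ s η P e M J hα hα1 ht hθ hθ1 hs hs0 hη0 hη1 hP he hP2 hM
  have hα0 : 0 < α := by linarith
  have hM' : (1 : ℝ) ≤ M := by exact_mod_cast hM
  have hc : 0 ≤ e * P * t := by positivity
  have key : ∀ j : ℕ, ENNReal.ofReal (e * P * t) *
      ∑ p ∈ TT M j, ab (ENNReal.ofReal (e * P * t)) (Kd α t η M) M p ≤
      ENNReal.ofReal (e * P * t * M * bj α j) := by
    intro j
    have e1 : ∑ p ∈ TT M j, ab (ENNReal.ofReal (e * P * t)) (Kd α t η M) M p =
        ENNReal.ofReal (∑ p ∈ TT M j, Ax α P η e M p) := by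
      rw [ENNReal.ofReal_sum_of_nonneg fun p _ => Ax_nonneg he hP hη0 M p]
      exact Finset.sum_congr rfl fun p _ => abx_eq he ht hP hη0 M p
    rw [e1, ← ENNReal.ofReal_mul hc]
    refine ENNReal.ofReal_le_ofReal ?_
    rw [mul_assoc (e * P * t)]
    refine mul_le_mul_of_nonneg_left ?_ hc
    refine (Finset.sum_le_sum fun p hp => Ax_le he hα hP hP2 hη0 hη1 M hM j p hp).trans ?_
    rw [Finset.sum_const, nsmul_eq_mul]
    have e2 : (TT M j).card = M := by
      unfold TT
      rw [Nat.card_Ico]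
      have e3 : (j + 1) * M = j * M + M := by ring
      omega
    rw [e2]
  constructor
  · have e1 : ∀ j ∈ Finset.range J, (ENNReal.ofReal (e * P * t) *
        ∑ p ∈ TT M j, ab (ENNReal.ofReal (e * P * t)) (Kd α t η M) M p) ^ θ ≤
        ENNReal.ofReal ((e * P * t * M) ^ θ * bj s j) := by
      intro j _
      refine (ENNReal.rpow_le_rpow (key j) hθ.le).trans ?_
      rw [ENNReal.ofReal_rpow_of_nonneg (mul_nonneg (by positivity) (bj_nonneg _ _)) hθ.le]
      refine ENNReal.ofReal_le_ofReal ?_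
      rw [Real.mul_rpow (by positivity) (bj_nonneg _ _)]
      exact mul_le_mul_of_nonneg_left (bj_pow hθ1 hs j) (by positivity)
    refine (Finset.sum_le_sum e1).trans ?_
    rw [← ENNReal.ofReal_sum_of_nonneg fun j _ => mul_nonneg (by positivity) (bj_nonneg _ _)]
    refine ENNReal.ofReal_le_ofReal ?_
    rw [← Finset.mul_sum]
    exact mul_le_mul_of_nonneg_left (sum_bj hs0 J) (by positivity)
  · intro j
    refine (key j).trans (ENNReal.ofReal_le_ofReal ?_)
    have e1 := bj_le_two hα0.le j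
    have e2 : 0 ≤ e * P * t * M := by positivity
    nlinarith

end Pool.Agent.H19.EX
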