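import Pool.Agent.H29.EX.Targets

/-!
# The sum over primes for two Dirichlet characters and a shift
-/

set_option autoImplicit false

open Complex Set Filter Topology Pool.Agent.H25.DP Pool.Agent.H29.EX Pool.Agent.H23.GLH

namespace Pool.Agent.H19.EX

open ArithmeticFunction in
/-- sums over primes and Dirichlet series of the von Mangoldt function -/
lemma ldc_key (c θ : ℕ → ℂ) (hc : ∀ n, ‖c n‖ ≤ 1) (hθ : ∀ n, ‖θ n‖ ≤ 1) {N : ℕ} (hN : N ≠ 0)
    (h : ∀ p : ℕ, p.Prime → ¬ p ∣ N → c p = θ p) :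
    ∃ B : ℝ, ∀ s : ℂ, 1 < s.re →
      ‖(∑' p : Nat.Primes, c p * (Real.log p : ℂ) * (p : ℂ) ^ (-s)) -
        LSeries (fun n => θ n * (vonMangoldt n : ℂ)) s‖ ≤ B := by
  have hR1 : Summable fun n : ℕ => (if n.Prime then 0 else vonMangoldt n : ℝ) / n := by
    have h1 := ArithmeticFunction.vonMangoldt.summable_residueClass_non_primes_div
      (q := 1) (a := (0 : ZMod 1))
    refine h1.congr fun n => ?_
    by_cases hn : n.Prime
    · simp [hn]
    · simp only [hn, if_false]
      rw [ArithmeticFunction.vonMangoldt.residueClass, Set.indicator_of_mem]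
      exact Subsingleton.elim _ _
  have hR2 : Summable fun n : ℕ => if n ∈ N.divisors then 2 * Real.log n else 0 := by
    refine summable_of_ne_finset_zero (s := N.divisors) ?_
    intro n hn
    simp [hn]
  refine ⟨∑' n : ℕ, ((if n.Prime then 0 else vonMangoldt n : ℝ) / n +
    (if n ∈ N.divisors then 2 * Real.log n else 0)), fun s hs => ?_⟩
  set a : ℕ → ℂ := LSeries.term (fun n => θ n * (vonMangoldt n : ℂ)) s with ha
  set b : ℕ → ℂ := {p : ℕ | p.Prime}.indicator
    (fun n => c n * (Real.log n : ℂ) * (n : ℂ) ^ (-s)) with hb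
  have hnorm : ∀ n : ℕ, 1 ≤ n → ‖(n : ℂ) ^ (-s)‖ ≤ 1 / n := by
    intro n hn
    have hn0 : (0 : ℝ) < n := by exact_mod_cast hn
    have h1 : ((n : ℂ)) = ((n : ℝ) : ℂ) := by simp
    rw [h1, Complex.norm_cpow_eq_rpow_re_of_pos hn0, one_div, ← Real.rpow_neg_one]
    refine Real.rpow_le_rpow_of_exponent_le (by exact_mod_cast hn) ?_
    rw [Complex.neg_re]
    linarith
  have hae : ∀ n : ℕ, 1 ≤ n → a n = θ n * (vonMangoldt n : ℂ) * (n : ℂ) ^ (-s) := by
    intro n hn
    rw [ha, LSeries.term_of_ne_zero (by omega), Complex.cpow_neg, div_eq_mul_inv]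
  have hsa : Summable a := by
    have h1 := ArithmeticFunction.LSeriesSummable_vonMangoldt hs
    unfold LSeriesSummable at h1
    refine Summable.of_norm_bounded h1.norm fun n => ?_
    rcases Nat.eq_zero_or_pos n with rfl | hn
    · simp [ha]
    · rw [ha, LSeries.term_of_ne_zero (by omega), LSeries.term_of_ne_zero (by omega), norm_div,
        norm_div, norm_mul]
      gcongr
      have := hθ n
      have h2 := norm_nonneg ((vonMangoldt n : ℝ) : ℂ)
      nlinarith
  have hab : ∀ n, ‖a n - b n‖ ≤ (if n.Prime then 0 else vonMangoldt n : ℝ) / n +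
      (if n ∈ N.divisors then 2 * Real.log n else 0) := by
    intro n
    rcases Nat.eq_zero_or_pos n with rfl | hn
    · have h1 : b 0 = 0 := by
        rw [hb, Set.indicator_of_notMem]
        exact Nat.not_prime_zero
      rw [h1, ha]
      simp
    have hn0 : (0 : ℝ) < n := by exact_mod_cast hn
    by_cases hp : n.Prime
    · have h1 : b n = c n * (Real.log n : ℂ) * (n : ℂ) ^ (-s) := by
        rw [hb, Set.indicator_of_mem]
        exact hp
      rw [hae n hn, h1, ArithmeticFunction.vonMangoldt_apply_prime hp, if_pos hp, zero_div,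
        zero_add]
      by_cases hd : n ∣ N
      · rw [if_pos (Nat.mem_divisors.2 ⟨hd, hN⟩)]
        have h2 : θ n * (Real.log n : ℂ) * (n : ℂ) ^ (-s) - c n * (Real.log n : ℂ) * (n : ℂ) ^ (-s) =
            (θ n - c n) * (Real.log n : ℂ) * (n : ℂ) ^ (-s) := by ring
        rw [h2, norm_mul, norm_mul, Complex.norm_real, Real.norm_of_nonneg (Real.log_natCast_nonneg n)]
        have h3 : ‖θ n - c n‖ ≤ 2 := (norm_sub_le _ _).trans (by linarith [hc n, hθ n])
        have h4 : ‖(n : ℂ) ^ (-s)‖ ≤ 1 := (hnorm n hn).trans (by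
          rw [div_le_one hn0]
          exact_mod_cast hn)
        have h5 := Real.log_natCast_nonneg n
        calc ‖θ n - c n‖ * Real.log n * ‖(n : ℂ) ^ (-s)‖ ≤ 2 * Real.log n * 1 := by gcongr
          _ = 2 * Real.log n := mul_one _
      · rw [if_neg (fun h' => hd (Nat.dvd_of_mem_divisors h')), h n hp hd]
        simp
    · have h1 : b n = 0 := by
        rw [hb, Set.indicator_of_notMem]
        exact hp
      rw [hae n hn, h1, if_neg hp, sub_zero, norm_mul, norm_mul, Complex.norm_real,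
        Real.norm_of_nonneg vonMangoldt_nonneg]
      have h2 : 0 ≤ (if n ∈ N.divisors then 2 * Real.log n else 0) := by
        have := Real.log_natCast_nonneg n
        split_ifs <;> positivity
      have h3 : (0 : ℝ) ≤ vonMangoldt n := vonMangoldt_nonneg
      calc ‖θ n‖ * vonMangoldt n * ‖(n : ℂ) ^ (-s)‖ ≤ 1 * vonMangoldt n * (1 / n) := by
            gcongr
            · exact hθ n
            · exact hnorm n hn
        _ = vonMangoldt n / n := by ring
        _ ≤ _ := by linarith
  have hsab : Summable fun n => a n - b n := Summable.of_norm_bounded (hR1.add hR2) hab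
  have hsb : Summable b := by
    have := hsa.sub hsab
    refine this.congr fun n => ?_
    ring
  have h1 : (∑' p : Nat.Primes, c p * (Real.log p : ℂ) * (p : ℂ) ^ (-s)) = ∑' n, b n := by
    rw [hb, ← tsum_subtype]
    rfl
  have h2 : LSeries (fun n => θ n * (vonMangoldt n : ℂ)) s = ∑' n, a n := rfl
  rw [h1, h2, norm_sub_rev, ← hsa.tsum_sub hsb]
  exact tsum_of_norm_bounded (hR1.add hR2).hasSum hab

/-- the path -/
lemma ldc_path (t : ℝ) (s : ℕ) :
    Tendsto (fun L : ℝ => ((1 + s / L : ℝ) : ℂ) + t * I) atTop (𝓝 (1 + t * I)) := by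
  have h1 : Tendsto (fun L : ℝ => (1 + s / L : ℝ)) atTop (𝓝 (1 + 0)) :=
    tendsto_const_nhds.add (tendsto_const_nhds.div_atTop tendsto_id)
  rw [add_zero] at h1
  have h2 := (Complex.continuous_ofReal.tendsto 1).comp h1
  simpa using h2.add_const ((t : ℂ) * I)

lemma ldc_inv : Tendsto (fun L : ℝ => ((L⁻¹ : ℝ) : ℂ)) atTop (𝓝 0) := by
  have := (Complex.continuous_ofReal.tendsto 0).comp tendsto_inv_atTop_zero
  rwa [Complex.ofReal_zero] at this

/-- the general step -/
lemma ldc_step {P G : ℝ → ℂ} {B : ℝ} {l : ℂ} (h : ∀ᶠ L in atTop, ‖P L - G L‖ ≤ B)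
    (hG : Tendsto (fun L : ℝ => G L / L) atTop (𝓝 l)) :
    Tendsto (fun L : ℝ => P L / L) atTop (𝓝 l) := by
  have h1 : Tendsto (fun L : ℝ => (P L - G L) / L) atTop (𝓝 0) := by
    rw [tendsto_zero_iff_norm_tendsto_zero]
    have h2 : Tendsto (fun L : ℝ => B / L) atTop (𝓝 0) := tendsto_const_nhds.div_atTop tendsto_id
    refine squeeze_zero' (Eventually.of_forall fun L => norm_nonneg _) ?_ h2
    filter_upwards [h, eventually_gt_atTop 0] with L hL hL0
    rw [norm_div, Complex.norm_real, Real.norm_of_nonneg hL0.le]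
    gcongr
  have h2 := h1.add hG
  rw [zero_add] at h2
  refine h2.congr fun L => ?_
  rw [← add_div]
  congr 1
  ring

/-- distinct primitive characters have a nontrivial quotient -/
lemma ldc_ne (ψ χ : PrimChar) (h : ψ ≠ χ) [NeZero ψ.q] [NeZero χ.q] :
    DirichletCharacter.changeLevel (Nat.dvd_mul_right ψ.q χ.q) ψ.χ *
      (DirichletCharacter.changeLevel (Nat.dvd_mul_left χ.q ψ.q) χ.χ)⁻¹ ≠ 1 := by
  intro h1
  apply h
  rw [mul_inv_eq_one] at h1
  have h2 : ψ.q = χ.q := by
    have h3 := congrArg DirichletCharacter.conductor h1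
    rw [DirichletCharacter.conductor_changeLevel, DirichletCharacter.conductor_changeLevel] at h3
    have h4 := ψ.prim
    have h5 := χ.prim
    rw [DirichletCharacter.isPrimitive_def] at h4 h5
    rw [← h4, ← h5, h3]
  obtain ⟨q, hq, c, hc⟩ := ψ
  obtain ⟨q', hq', c', hc'⟩ := χ
  simp only at h2
  subst h2
  simp only at h1
  congr 1
  exact DirichletCharacter.changeLevel_injective _ h1

/-- values at primes -/
lemma ldc_val (ψ χ : PrimChar) {p : ℕ} (hp : p.Prime) (hd : ¬ p ∣ ψ.q * χ.q) :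
    chz ψ p * (starRingEnd ℂ) (chz χ p) =
    (DirichletCharacter.changeLevel (Nat.dvd_mul_right ψ.q χ.q) ψ.χ *
      (DirichletCharacter.changeLevel (Nat.dvd_mul_left χ.q ψ.q) χ.χ)⁻¹) (p : ZMod (ψ.q * χ.q)) := by
  have hco : IsCoprime (p : ℤ) ((ψ.q * χ.q : ℕ) : ℤ) :=
    Nat.isCoprime_iff_coprime.2 ((Nat.Prime.coprime_iff_not_dvd hp).2 hd)
  have h1 := DirichletCharacter.changeLevel_eq_cast_of_dvd' ψ.χ (Nat.dvd_mul_right ψ.q χ.q) hco
  have h2 := DirichletCharacter.changeLevel_eq_cast_of_dvd' χ.χ (Nat.dvd_mul_left χ.q ψ.q) hco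
  rw [MulChar.mul_apply, ← MulChar.star_apply']
  simp only [Int.cast_natCast] at h1 h2
  rw [h1, h2]
  unfold chz
  rw [if_neg hp.ne_zero, if_neg hp.ne_zero]
  rfl

theorem pf_LDC : T_LDC := by
  intro ψ χ t s hs
  have hs0 : (0 : ℝ) < s := by exact_mod_cast hs
  have := ψ.q_ne
  have := χ.q_ne
  have hN : ψ.q * χ.q ≠ 0 := mul_ne_zero (NeZero.ne _) (NeZero.ne _)
  have : NeZero (ψ.q * χ.q) := ⟨hN⟩
  set c : ℕ → ℂ := fun n => chz ψ n * (starRingEnd ℂ) (chz χ n) with hc
  have hc1 : ∀ n, ‖c n‖ ≤ 1 := by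
    intro n
    rw [hc]
    simp only [norm_mul, RCLike.norm_conj]
    have h1 := norm_chz_le ψ n
    have h2 := norm_chz_le χ n
    have h3 := norm_nonneg (chz ψ n)
    have h4 := norm_nonneg (chz χ n)
    nlinarith
  -- rewriting the sum
  have hP : ∀ L : ℝ, (∑' p : Nat.Primes, chz ψ p * (starRingEnd ℂ) (chz χ p) *
      (p : ℂ) ^ (-(t * I) : ℂ) * Real.log p * ((p : ℝ) ^ (-(1 + s / L) : ℝ) : ℝ)) =
      ∑' p : Nat.Primes, c p * (Real.log p : ℂ) *
        (p : ℂ) ^ (-(((1 + s / L : ℝ) : ℂ) + t * I)) := by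
    intro L
    refine tsum_congr fun p => ?_
    have hp0 : ((p : ℕ) : ℂ) ≠ 0 := by exact_mod_cast p.2.ne_zero
    have h1 : ((((p : ℕ) : ℝ) ^ (-(1 + s / L) : ℝ) : ℝ) : ℂ) =
        ((p : ℕ) : ℂ) ^ (-((1 + s / L : ℝ) : ℂ)) := by
      rw [Complex.ofReal_cpow (Nat.cast_nonneg _), Complex.ofReal_natCast, Complex.ofReal_neg]
    have h2 : ((p : ℕ) : ℂ) ^ (-(((1 + s / L : ℝ) : ℂ) + t * I)) =
        ((p : ℕ) : ℂ) ^ (-((1 + s / L : ℝ) : ℂ)) * ((p : ℕ) : ℂ) ^ (-(t * I) : ℂ) := by
      rw [neg_add, Complex.cpow_add _ _ hp0]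
    rw [h1, h2]
    ring
  simp only [hP]
  have hre : ∀ᶠ L : ℝ in atTop, 1 < (((1 + s / L : ℝ) : ℂ) + t * I).re := by
    filter_upwards [eventually_gt_atTop 0] with L hL
    have : (0 : ℝ) < s / L := by positivity
    simp
    positivity
  have hpath := ldc_path t s
  by_cases hcase : ψ = χ ∧ t = 0
  · rw [if_pos hcase]
    obtain ⟨rfl, rfl⟩ := hcase
    obtain ⟨B, hB⟩ := ldc_key c (fun _ => 1) hc1 (by simp) hN (by
      intro p hp hd
      rw [hc]
      simp only
      have h1 := ldc_val ψ ψ hp hd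
      rw [h1, mul_inv_cancel]
      exact MulChar.one_apply ((ZMod.isUnit_iff_coprime _ _).2
        ((Nat.Prime.coprime_iff_not_dvd hp).2 hd)))
    refine ldc_step (B := B) (G := fun L => LSeries (fun n => (fun _ => (1 : ℂ)) n *
      (ArithmeticFunction.vonMangoldt n : ℂ)) (((1 + s / L : ℝ) : ℂ) + (0 : ℝ) * I)) ?_ ?_
    · filter_upwards [hre] with L hL
      exact hB _ hL
    · have hF := (ArithmeticFunction.vonMangoldt.continuousOn_LFunctionResidueClassAux
        (q := 1) (1 : ZMod 1))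
      have h1 : Tendsto (fun L : ℝ => ArithmeticFunction.vonMangoldt.LFunctionResidueClassAux
          (1 : ZMod 1) (((1 + s / L : ℝ) : ℂ) + (0 : ℝ) * I)) atTop
          (𝓝 (ArithmeticFunction.vonMangoldt.LFunctionResidueClassAux (1 : ZMod 1)
            (1 + (0 : ℝ) * I))) := by
        have h2 := hF (1 + (0 : ℝ) * I) (by simp)
        refine h2.tendsto.comp (tendsto_nhdsWithin_iff.2 ⟨hpath, ?_⟩)
        filter_upwards [hre] with L hL
        exact hL.le
      have h2 : Tendsto (fun L : ℝ => ArithmeticFunction.vonMangoldt.LFunctionResidueClassAux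
          (1 : ZMod 1) (((1 + s / L : ℝ) : ℂ) + (0 : ℝ) * I) / L) atTop (𝓝 0) := by
        have h4 := h1.mul ldc_inv
        rw [mul_zero] at h4
        refine h4.congr fun L => ?_
        rw [Complex.ofReal_inv]
        exact (div_eq_mul_inv _ _).symm
      have h3 := h2.add_const (1 / s : ℂ)
      rw [zero_add] at h3
      refine h3.congr' ?_
      filter_upwards [hre, eventually_gt_atTop 0] with L hL hL0
      have h4 := ArithmeticFunction.vonMangoldt.eqOn_LFunctionResidueClassAux
        (isUnit_one : IsUnit (1 : ZMod 1)) hL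
      rw [h4]
      have h5 : LSeries (fun n => ((ArithmeticFunction.vonMangoldt.residueClass (1 : ZMod 1) n : ℝ) : ℂ))
          (((1 + s / L : ℝ) : ℂ) + (0 : ℝ) * I) = LSeries (fun n => (fun _ => (1 : ℂ)) n *
          (ArithmeticFunction.vonMangoldt n : ℂ)) (((1 + s / L : ℝ) : ℂ) + (0 : ℝ) * I) := by
        congr 1
        funext n
        rw [one_mul, ArithmeticFunction.vonMangoldt.residueClass, Set.indicator_of_mem]
        exact Subsingleton.elim _ _
      have hL0' : (L : ℂ) ≠ 0 := by exact_mod_cast hL0.ne'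
      have hs0' : (s : ℂ) ≠ 0 := by exact_mod_cast hs0.ne'
      have hz : (((1 + s / L : ℝ) : ℂ) + (0 : ℝ) * I) - 1 = s / L := by
        push_cast
        ring
      show (LSeries (fun n => ((ArithmeticFunction.vonMangoldt.residueClass (1 : ZMod 1) n : ℝ) : ℂ))
          (((1 + s / L : ℝ) : ℂ) + (0 : ℝ) * I) - ((Nat.totient 1 : ℕ) : ℂ)⁻¹ /
            ((((1 + s / L : ℝ) : ℂ) + (0 : ℝ) * I) - 1)) / L + 1 / s = _
      rw [h5, hz, Nat.totient_one, Nat.cast_one, inv_one, sub_div, one_div_div,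
        div_div, mul_comm (s : ℂ), ← div_div, div_self hL0']
      ring
  · rw [if_neg hcase]
    set θ : DirichletCharacter ℂ (ψ.q * χ.q) :=
      DirichletCharacter.changeLevel (Nat.dvd_mul_right ψ.q χ.q) ψ.χ *
      (DirichletCharacter.changeLevel (Nat.dvd_mul_left χ.q ψ.q) χ.χ)⁻¹ with hθ
    have hor : θ ≠ 1 ∨ (1 + t * I : ℂ) ≠ 1 := by
      by_cases h1 : ψ = χ
      · right
        intro h2
        apply hcase
        refine ⟨h1, ?_⟩
        have h3 := congrArg Complex.im h2
        simpa using h3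
      · left
        exact ldc_ne ψ χ h1
    obtain ⟨B, hB⟩ := ldc_key c (fun n => θ n) hc1 (fun n => θ.norm_le_one _) hN
      (fun p hp hd => ldc_val ψ χ hp hd)
    refine ldc_step (B := B) (G := fun L => LSeries (fun n => θ n *
      (ArithmeticFunction.vonMangoldt n : ℂ)) (((1 + s / L : ℝ) : ℂ) + t * I)) ?_ ?_
    · filter_upwards [hre] with L hL
      exact hB _ hL
    · have hne : DirichletCharacter.LFunction θ (1 + t * I) ≠ 0 :=
        DirichletCharacter.LFunction_ne_zero_of_one_le_re θ hor (by simp)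
      have hd : AnalyticAt ℂ (DirichletCharacter.LFunction θ) (1 + t * I) := by
        rcases hor with h1 | h1
        · exact (DirichletCharacter.differentiable_LFunction h1).analyticAt _
        · have h2 : DifferentiableOn ℂ (DirichletCharacter.LFunction θ) {1}ᶜ := fun z hz =>
            (DirichletCharacter.differentiableAt_LFunction θ z (Or.inl hz)).differentiableWithinAt
          exact h2.analyticAt (isOpen_compl_singleton.mem_nhds h1)
      have hcont : ContinuousAt (fun z => -deriv (DirichletCharacter.LFunction θ) z /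
          DirichletCharacter.LFunction θ z) (1 + t * I) :=
        hd.deriv.continuousAt.neg.div hd.continuousAt hne
      have h1 := hcont.tendsto.comp hpath
      have h4 := h1.mul ldc_inv
      rw [mul_zero] at h4
      refine h4.congr' ?_
      filter_upwards [hre] with L hL
      have h5 := DirichletCharacter.LSeries_twist_vonMangoldt_eq θ hL
      rw [← DirichletCharacter.deriv_LFunction_eq_deriv_LSeries θ hL,
        ← DirichletCharacter.LFunction_eq_LSeries θ hL] at h5
      rw [div_eq_mul_inv, Complex.ofReal_inv]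
      congr 1
      exact h5.symm

end Pool.Agent.H19.EX
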