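import Pool.Agent.H98.EX.LTargets
import Pool.Agent.H73.SLN.MAS

/-! # Row MMX of the board exa_modules: the mass of the paths with short excursions -/

set_option autoImplicit false

open MeasureTheory ProbabilityTheory Filter Topology
open scoped ENNReal
open Pool.Agent.H95 Pool.Agent.H95.Cop
open Pool.Agent.H55.CG (VV Mo)
open Pool.Agent.H98.SLN (RG TS MM YY sd kq uq)
open Pool.Agent.H98.EX
open Pool.Agent.H73.SLN

namespace Pool.Agent.H19.EX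

/-- the window sum -/
lemma mmx_window (hRID : Pool.Agent.H98.SLN.T_RID) (hUUP : Pool.Agent.H98.SLN.T_UUP)
    (hTLQ : Pool.Agent.H98.SLN.T_TLQ) (K : PMF ℕ) (α c δ : ℝ) (ℓ q : ℕ)
    (hR : RG K α c δ ℓ q) (A : ℕ) (L r : ℝ) (hL1 : 2 ≤ L) (hA : (A : ℝ) ≤ L * ℓ) (hr0 : 0 < r)
    (hr1 : r ≤ 1 / 8) (hL : 2 ^ 9 * Real.sqrt δ * L ≤ r) :
    (1 - r / 4) * ℓ ≤ (∑ n ∈ Finset.Ico A (A + ℓ), uq K q n) * TS K ℓ := by
  obtain ⟨hl1, hql, hTS, hT0, -⟩ := hTLQ K α c δ ℓ q hR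
  obtain ⟨hU1, hU2, -, -⟩ := hUUP K hR.K0
  obtain ⟨s, hs⟩ : ∃ s, s = Real.sqrt δ := ⟨_, rfl⟩
  rw [← hs] at hL hT0
  have hs0 : 0 ≤ s := by rw [hs]; exact Real.sqrt_nonneg _
  have hs1 : 2 ^ 10 * s ≤ r := by
    have h1 : 2 ^ 9 * s * 2 ≤ 2 ^ 9 * s * L := mul_le_mul_of_nonneg_left hL1 (by positivity)
    linarith
  have hlR : (1 : ℝ) ≤ ℓ := by exact_mod_cast hl1
  obtain ⟨T0, hT0d⟩ : ∃ T0, T0 = tailK K (q + 1) := ⟨_, rfl⟩
  rw [← hT0d] at hT0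
  have hT00 : 0 ≤ T0 := by rw [hT0d]; exact tailK_nonneg K _
  -- UU K A * TS K ℓ ≤ 2 L ℓ
  have hUA : UU K A * TS K ℓ ≤ 2 * (L * ℓ) := by
    have h1 : UU K A ≤ UU K (max A ℓ) := mas_UU_mono K (le_max_left _ _)
    have h2 : TS K ℓ ≤ TS K (max A ℓ) := hU2 _ _ (le_max_right _ _)
    have h3 := hU1 (max A ℓ)
    have h4 : ((max A ℓ : ℕ) : ℝ) ≤ L * ℓ := by
      rw [Nat.cast_max]
      apply max_le hA
      nlinarith
    have h5 : 0 ≤ UU K (max A ℓ) := Finset.sum_nonneg fun n _ => uu_nonneg _ (kk_nonneg K) n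
    calc UU K A * TS K ℓ ≤ UU K (max A ℓ) * TS K (max A ℓ) :=
          mul_le_mul h1 h2 hTS.le h5
      _ ≤ 2 * ((max A ℓ : ℕ) : ℝ) := h3
      _ ≤ _ := by linarith
  -- small part
  have hsm : T0 * UU K A ≤ r / 8 := by
    have h1 : (T0 * UU K A) * (ℓ * TS K ℓ) ≤ r / 8 * (ℓ * TS K ℓ) := by
      have h2 : (T0 * ℓ) * (UU K A * TS K ℓ) ≤ (32 * s * TS K ℓ) * (2 * (L * ℓ)) := by
        apply mul_le_mul hT0 hUA
        · exact mul_nonneg (Finset.sum_nonneg fun n _ => uu_nonneg _ (kk_nonneg K) n) hTS.le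
        · positivity
      have h3 : (32 * s * TS K ℓ) * (2 * (L * ℓ)) = (2 ^ 9 * s * L) * (1 / 8 * (ℓ * TS K ℓ)) := by
        ring
      have h4 : (2 ^ 9 * s * L) * (1 / 8 * (ℓ * TS K ℓ)) ≤ r * (1 / 8 * (ℓ * TS K ℓ)) := by
        apply mul_le_mul_of_nonneg_right hL
        positivity
      calc (T0 * UU K A) * (ℓ * TS K ℓ) = (T0 * ℓ) * (UU K A * TS K ℓ) := by ring
        _ ≤ _ := h2
        _ = _ := h3
        _ ≤ _ := h4
        _ = _ := by ring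
    have h5 : 0 < ℓ * TS K ℓ := mul_pos (by linarith) hTS
    exact le_of_mul_le_mul_right h1 h5
  obtain ⟨T, hTd⟩ : ∃ T : ℕ → ℝ, T = fun j => 1 - ∑ i ∈ Finset.range j, kq K q i := ⟨_, rfl⟩
  have hTn : ∀ j, 0 ≤ T j := fun j => by rw [hTd]; exact mas_T_nonneg K q j
  have hu0 : ∀ n, 0 ≤ uq K q n := fun n => (mas_uqle K q n).1
  have hkq0 : kq K q 0 = 0 := by
    unfold kq
    rw [if_pos (Nat.zero_le _)]
    simp [kk, hR.K0]
  -- each m
  have hm : ∀ m ∈ Finset.Ico (A + q) (A + ℓ),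
      1 - r / 8 ≤ ∑ n ∈ Finset.Ico A (m + 1), uq K q n * T (m + 1 - n) := by
    intro m hm
    rw [Finset.mem_Ico] at hm
    have h1 := hRID (kq K q) hkq0 m
    have h2 : ∑ n ∈ Finset.range (m + 1), uu (kq K q) n *
        (1 - ∑ i ∈ Finset.range (m + 1 - n), kq K q i) =
        ∑ n ∈ Finset.range A, uq K q n * T (m + 1 - n) +
          ∑ n ∈ Finset.Ico A (m + 1), uq K q n * T (m + 1 - n) := by
      rw [Finset.sum_range_add_sum_Ico _ (by omega), hTd]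
      rfl
    have h3 : ∑ n ∈ Finset.range A, uq K q n * T (m + 1 - n) ≤ T0 * UU K A := by
      unfold UU
      rw [Finset.mul_sum]
      apply Finset.sum_le_sum
      intro n hn
      rw [Finset.mem_range] at hn
      have h4 : T (m + 1 - n) = T0 := by
        rw [hTd, hT0d]; exact mas_T_big K q _ (by omega)
      rw [h4, mul_comm]
      exact mul_le_mul_of_nonneg_left (mas_uqle K q n).2 hT00
    rw [h2] at h1
    linarith
  have hsum : (1 - r / 8) * ((ℓ : ℝ) - q) ≤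
      ∑ m ∈ Finset.Ico (A + q) (A + ℓ), ∑ n ∈ Finset.Ico A (m + 1), uq K q n * T (m + 1 - n) := by
    have h1 : ∑ m ∈ Finset.Ico (A + q) (A + ℓ), (1 - r / 8 : ℝ) =
        (1 - r / 8) * ((ℓ : ℝ) - q) := by
      rw [Finset.sum_const, Nat.card_Ico, nsmul_eq_mul]
      have : A + ℓ - (A + q) = ℓ - q := by omega
      rw [this, Nat.cast_sub hql]
      ring
    rw [← h1]
    exact Finset.sum_le_sum hm
  have hsw : ∑ m ∈ Finset.Ico (A + q) (A + ℓ), ∑ n ∈ Finset.Ico A (m + 1),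
      uq K q n * T (m + 1 - n) ≤
      ∑ n ∈ Finset.Ico A (A + ℓ), uq K q n * ∑ j ∈ Finset.range ℓ, T (j + 1) := by
    have h1 : ∑ m ∈ Finset.Ico (A + q) (A + ℓ), ∑ n ∈ Finset.Ico A (m + 1),
        uq K q n * T (m + 1 - n) ≤ ∑ m ∈ Finset.Ico A (A + ℓ), ∑ n ∈ Finset.Ico A (m + 1),
        uq K q n * T (m + 1 - n) := by
      apply Finset.sum_le_sum_of_subset_of_nonneg
      · intro m hm
        rw [Finset.mem_Ico] at hm ⊢
        omega
      · intro m _ _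
        exact Finset.sum_nonneg fun n _ => mul_nonneg (hu0 n) (hTn _)
    refine h1.trans ?_
    have h2 : ∑ m ∈ Finset.Ico A (A + ℓ), ∑ n ∈ Finset.Ico A (m + 1), uq K q n * T (m + 1 - n) =
        ∑ n ∈ Finset.Ico A (A + ℓ), ∑ m ∈ Finset.Ico n (A + ℓ), uq K q n * T (m + 1 - n) := by
      apply Finset.sum_comm'
      intro m n
      simp only [Finset.mem_Ico]
      omega
    rw [h2]
    apply Finset.sum_le_sum
    intro n hn
    rw [Finset.mem_Ico] at hn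
    rw [← Finset.mul_sum]
    apply mul_le_mul_of_nonneg_left _ (hu0 n)
    have h3 : ∑ m ∈ Finset.Ico n (A + ℓ), T (m + 1 - n) =
        ∑ j ∈ Finset.range (A + ℓ - n), T (j + 1) := by
      rw [Finset.sum_Ico_eq_sum_range]
      apply Finset.sum_congr rfl
      intro j _
      have : n + j + 1 - n = j + 1 := by omega
      rw [this]
    rw [h3]
    apply Finset.sum_le_sum_of_subset_of_nonneg
    · intro i hi
      rw [Finset.mem_range] at hi ⊢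
      omega
    · intro i _ _
      exact hTn _
  have hTsum : ∑ j ∈ Finset.range ℓ, T (j + 1) ≤ (1 + r / 32) * TS K ℓ := by
    have h1 : ∑ j ∈ Finset.range ℓ, T (j + 1) ≤ TS K ℓ + ℓ * T0 := by
      have h2 : ∑ j ∈ Finset.range ℓ, T (j + 1) ≤
          ∑ j ∈ Finset.range ℓ, (tailK K (j + 1) + T0) :=
        Finset.sum_le_sum fun j _ => by rw [hTd, hT0d]; exact mas_T_le K q (j + 1)
      rw [Finset.sum_add_distrib, Finset.sum_const, Finset.card_range, nsmul_eq_mul] at h2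
      exact h2
    have h3 : (ℓ : ℝ) * T0 ≤ r / 32 * TS K ℓ := by
      have h4 : 32 * s * TS K ℓ ≤ r / 32 * TS K ℓ := by
        apply mul_le_mul_of_nonneg_right _ hTS.le
        linarith
      linarith [mul_comm (ℓ : ℝ) T0]
    linarith
  have hW0 : 0 ≤ ∑ n ∈ Finset.Ico A (A + ℓ), uq K q n := Finset.sum_nonneg fun n _ => hu0 n
  have hfin : (1 - r / 8) * ((ℓ : ℝ) - q) ≤
      (∑ n ∈ Finset.Ico A (A + ℓ), uq K q n) * ((1 + r / 32) * TS K ℓ) := by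
    refine (hsum.trans hsw).trans ?_
    rw [← Finset.sum_mul]
    exact mul_le_mul_of_nonneg_left hTsum hW0
  have hq3 : (q : ℝ) ≤ r / 2 ^ 10 * ℓ := by
    have h1 := hR.q3
    rw [← hs] at h1
    refine h1.trans (mul_le_mul_of_nonneg_right ?_ (by linarith))
    linarith
  have h6 : (1 - r / 8) * ((ℓ : ℝ) - r / 2 ^ 10 * ℓ) ≤
      (1 + r / 32) * ((∑ n ∈ Finset.Ico A (A + ℓ), uq K q n) * TS K ℓ) := by
    calc (1 - r / 8) * ((ℓ : ℝ) - r / 2 ^ 10 * ℓ) ≤ (1 - r / 8) * ((ℓ : ℝ) - q) :=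
          mul_le_mul_of_nonneg_left (by linarith) (by linarith)
      _ ≤ _ := hfin
      _ = _ := by ring
  have h7 : (1 + r / 32) * ((1 - r / 4) * ℓ) ≤ (1 - r / 8) * ((ℓ : ℝ) - r / 2 ^ 10 * ℓ) := by
    have h8 : (1 + r / 32) * (1 - r / 4) ≤ (1 - r / 8) * (1 - r / 2 ^ 10) := by nlinarith
    have h9 := mul_le_mul_of_nonneg_right h8 (by linarith : (0 : ℝ) ≤ ℓ)
    linarith
  exact le_of_mul_le_mul_left (h7.trans h6) (by linarith)

theorem pf_MMX (hRID : Pool.Agent.H98.SLN.T_RID) (hUUP : Pool.Agent.H98.SLN.T_UUP)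
    (hTLQ : Pool.Agent.H98.SLN.T_TLQ) (hVVX : T_VVX) : T_MMX := by
  intro K α c δ r ℓ q hX hrk a b hab hL
  have hR := hX.rg
  obtain ⟨hl1, hql, hTS, hT0, -⟩ := hTLQ K α c δ ℓ q hR
  obtain ⟨-, hV2⟩ := hVVX K α c δ r ℓ q hX hrk
  have hlR : (1 : ℝ) ≤ ℓ := by exact_mod_cast hl1
  have habR : (a : ℝ) + 1 ≤ b := by exact_mod_cast hab
  have hr0 := hX.r0
  have hr1 := hX.r1
  -- the inner sums
  have hin : ∀ y ∈ Finset.Ico (a * ℓ) ((a + 1) * ℓ), (1 - r / 4) * ℓ / TS K ℓ ≤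
      ∑ z ∈ Finset.Ico (b * ℓ) ((b + 1) * ℓ), uq K q (z - y) := by
    intro y hy
    rw [Finset.mem_Ico] at hy
    have hyb : y ≤ b * ℓ := hy.2.le.trans (Nat.mul_le_mul_right ℓ hab)
    have h1 : ∑ z ∈ Finset.Ico (b * ℓ) ((b + 1) * ℓ), uq K q (z - y) =
        ∑ n ∈ Finset.Ico (b * ℓ - y) (b * ℓ - y + ℓ), uq K q n := by
      rw [Finset.sum_Ico_eq_sum_range, Finset.sum_Ico_eq_sum_range]
      have e1 : (b + 1) * ℓ - b * ℓ = ℓ := by rw [Nat.add_mul, one_mul]; omega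
      have e2 : b * ℓ - y + ℓ - (b * ℓ - y) = ℓ := by omega
      rw [e1, e2]
      apply Finset.sum_congr rfl
      intro j _
      have : b * ℓ + j - y = b * ℓ - y + j := by omega
      rw [this]
    rw [h1, div_le_iff₀ hTS]
    apply mmx_window hRID hUUP hTLQ K α c δ ℓ q hR (b * ℓ - y) ((b : ℝ) + 1 - a) r (by linarith)
      _ hr0 hr1 hL
    rw [Nat.cast_sub hyb]
    push_cast
    have h2 : (a : ℝ) * ℓ ≤ y := by exact_mod_cast hy.1
    nlinarith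
  have hMM : (ℓ : ℝ) * ((1 - r / 4) * ℓ / TS K ℓ) ≤ MM K ℓ q a b := by
    unfold MM
    have h1 : ∑ y ∈ Finset.Ico (a * ℓ) ((a + 1) * ℓ), ((1 - r / 4) * (ℓ : ℝ) / TS K ℓ) =
        (ℓ : ℝ) * ((1 - r / 4) * ℓ / TS K ℓ) := by
      rw [Finset.sum_const, Nat.card_Ico, nsmul_eq_mul]
      have : (a + 1) * ℓ - a * ℓ = ℓ := by rw [Nat.add_mul, one_mul]; omega
      rw [this]
    rw [← h1]
    exact Finset.sum_le_sum hin
  refine le_trans ?_ hMM
  have hVV : 0 ≤ VV K ℓ := by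
    unfold VV
    exact Finset.sum_nonneg fun y _ => Finset.sum_nonneg fun z _ => uu_nonneg _ (kk_nonneg K) _
  have h2 : (ℓ : ℝ) * ((1 - r / 4) * ℓ / TS K ℓ) = (1 - r / 4) * (ℓ : ℝ) ^ 2 / TS K ℓ := by ring
  rw [h2, le_div_iff₀ hTS]
  have h3 : 0 ≤ 2 * TS K ℓ * VV K ℓ := by positivity
  by_cases h8 : 1 - 8 * r ≤ 0
  · have h9 : 2 * (1 - 8 * r) * VV K ℓ * TS K ℓ ≤ 0 := by
      have : 2 * (1 - 8 * r) * VV K ℓ * TS K ℓ = (1 - 8 * r) * (2 * TS K ℓ * VV K ℓ) := by ring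
      rw [this]
      exact mul_nonpos_of_nonpos_of_nonneg h8 h3
    exact h9.trans (mul_nonneg (by linarith) (by positivity))
  · push Not at h8
    have h4 : (1 - 8 * r) * (2 * TS K ℓ * VV K ℓ) ≤ (1 - 8 * r) * ((1 + 4 * r) * (ℓ : ℝ) ^ 2) :=
      mul_le_mul_of_nonneg_left hV2 h8.le
    have h5 : (1 - 8 * r) * (1 + 4 * r) ≤ 1 - r / 4 := by nlinarith
    have h6 := mul_le_mul_of_nonneg_right h5 (by positivity : (0 : ℝ) ≤ (ℓ : ℝ) ^ 2)
    linarith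

end Pool.Agent.H19.EX
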