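import Pool.Agent.H98.EX.PTargets

/-! # Row NCD of the board exa_modules: decomposition of the stretches between cells -/

set_option autoImplicit false

open MeasureTheory ProbabilityTheory Filter Topology
open scoped ENNReal
open Pool.Agent.H95 Pool.Agent.H95.Cop
open Pool.Agent.H99.CE (PF)
open Pool.Agent.H98.EX

namespace Pool.Agent.H19.EX

/-- shift of a double sum -/
theorem ncd_sum {p a q e : ℕ} (hpa : e ≤ p) (hq : e ≤ q) (F : ℕ → ℕ → ℝ≥0∞) :
    ∑ i ∈ Finset.Ico (p - e) (a - e), ∑ j ∈ Finset.Icc i (q - e), F i j =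
      ∑ i ∈ Finset.Ico p a, ∑ j ∈ Finset.Icc i q, F (i - e) (j - e) := by
  refine Finset.sum_nbij' (fun i => i + e) (fun i => i - e) ?_ ?_ ?_ ?_ ?_
  · intro i hi; rw [Finset.mem_Ico] at hi ⊢; omega
  · intro i hi; rw [Finset.mem_Ico] at hi ⊢; omega
  · intro i _; simp
  · intro i hi; rw [Finset.mem_Ico] at hi; show i - e + e = i; omega
  · intro i hi
    rw [Finset.mem_Ico] at hi
    refine Finset.sum_nbij' (fun j => j + e) (fun j => j - e) ?_ ?_ ?_ ?_ ?_
    · intro j hj; rw [Finset.mem_Icc] at hj ⊢; omega
    · intro j hj; rw [Finset.mem_Icc] at hj ⊢; omega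
    · intro j _; simp
    · intro j hj; rw [Finset.mem_Icc] at hj; show j - e + e = j; omega
    · intro j _
      rw [Nat.add_sub_cancel, Nat.add_sub_cancel]

theorem pf_NCD (hPF3 : T_PF3) : T_NCD := by
  intro w b k R d hk hR hd hw hb x
  have h1 : 2 * k ≤ R * k := Nat.mul_le_mul_right k hR
  have h2 : (R + 1) * k ≤ (d + 1 - R) * k := Nat.mul_le_mul_right k (by omega)
  have h3 : (d + 1 - R) * k + k ≤ d * k := by
    rw [← Nat.succ_mul]
    exact Nat.mul_le_mul_right k (by omega)
  have h4 : (R + 1) * k = R * k + k := by ring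
  have h5 : (d + 1) * k = d * k + k := by ring
  obtain ⟨D, hD⟩ : ∃ D, D = (d + 1 - R) * k := ⟨_, rfl⟩
  obtain ⟨A, hA⟩ : ∃ A, A = R * k := ⟨_, rfl⟩
  obtain ⟨L, hL⟩ : ∃ L, L = d * k := ⟨_, rfl⟩
  unfold NC AP BQ
  rw [h4] at h2
  rw [← hD, ← hA] at h2
  rw [← hD, ← hL] at h3
  rw [← hA] at h1
  rw [h4, h5, ← hD, ← hA, ← hL]
  have key : ∀ e < k, ∀ r < k, PF w (L + r - e) (shift e x) =
      ∑ i ∈ Finset.Ico A (A + k), ∑ j ∈ Finset.Icc i D, GP w (A - e) (i - e) (shift e x) *
        (PF w (j - i) (shift i x) * GQ w (D - j) (L + r - j) (shift j x)) := by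
    intro e he r hr
    have e1 := hPF3 w k hw (A - e) (D - e) (L + r - e) (by omega) (by omega) (by omega)
      (shift e x)
    rw [e1]
    have e2 : A - e + k = (A + k) - e := by omega
    rw [e2, ncd_sum (by omega : e ≤ A) (by omega : e ≤ D)]
    refine Finset.sum_congr rfl fun i hi => Finset.sum_congr rfl fun j hj => ?_
    rw [Finset.mem_Ico] at hi
    rw [Finset.mem_Icc] at hj
    rw [shift_shift, shift_shift]
    have e3 : j - e - (i - e) = j - i := by omega
    have e4 : i - e + e = i := by omega
    have e5 : D - e - (j - e) = D - j := by omega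
    have e6 : L + r - e - (j - e) = L + r - j := by omega
    have e7 : j - e + e = j := by omega
    rw [e3, e4, e5, e6, e7]
  calc ∑ e ∈ Finset.range k, ∑ r ∈ Finset.range k, (if e ≤ L + r then
        b x 0 e * PF w (L + r - e) (shift e x) * b x (L + r) (L + k) else 0)
      = ∑ e ∈ Finset.range k, ∑ r ∈ Finset.range k, ∑ i ∈ Finset.Ico A (A + k),
          ∑ j ∈ Finset.Icc i D, (b x 0 e * GP w (A - e) (i - e) (shift e x)) *
            (PF w (j - i) (shift i x) * (GQ w (D - j) (L + r - j) (shift j x) *
              b (shift j x) (L + r - j) (L + k - j))) := by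
        refine Finset.sum_congr rfl fun e he => Finset.sum_congr rfl fun r hr => ?_
        rw [Finset.mem_range] at he hr
        rw [if_pos (by omega), key e he r hr, Finset.mul_sum, Finset.sum_mul]
        refine Finset.sum_congr rfl fun i hi => ?_
        rw [Finset.mul_sum, Finset.sum_mul]
        refine Finset.sum_congr rfl fun j hj => ?_
        rw [Finset.mem_Icc] at hj
        have e1 := hb x j (L + r - j) (L + k - j)
        have e2 : L + r - j + j = L + r := by omega
        have e3 : L + k - j + j = L + k := by omega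
        rw [e2, e3] at e1
        rw [e1]
        ring
    _ = ∑ i ∈ Finset.Ico A (A + k), ∑ j ∈ Finset.Icc i D, ∑ e ∈ Finset.range k,
          ∑ r ∈ Finset.range k, (b x 0 e * GP w (A - e) (i - e) (shift e x)) *
            (PF w (j - i) (shift i x) * (GQ w (D - j) (L + r - j) (shift j x) *
              b (shift j x) (L + r - j) (L + k - j))) := by
        have e1 : ∀ G : ℕ → ℕ → ℕ → ℕ → ℝ≥0∞, ∑ e ∈ Finset.range k, ∑ r ∈ Finset.range k,
            ∑ i ∈ Finset.Ico A (A + k), ∑ j ∈ Finset.Icc i D, G e r i j =
            ∑ i ∈ Finset.Ico A (A + k), ∑ j ∈ Finset.Icc i D, ∑ e ∈ Finset.range k,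
              ∑ r ∈ Finset.range k, G e r i j := by
          intro G
          calc ∑ e ∈ Finset.range k, ∑ r ∈ Finset.range k,
              ∑ i ∈ Finset.Ico A (A + k), ∑ j ∈ Finset.Icc i D, G e r i j
              = ∑ e ∈ Finset.range k, ∑ i ∈ Finset.Ico A (A + k), ∑ j ∈ Finset.Icc i D,
                  ∑ r ∈ Finset.range k, G e r i j := by
                refine Finset.sum_congr rfl fun e _ => ?_
                rw [Finset.sum_comm]
                refine Finset.sum_congr rfl fun i _ => ?_
                rw [Finset.sum_comm]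
            _ = _ := by
                rw [Finset.sum_comm]
                refine Finset.sum_congr rfl fun i _ => ?_
                rw [Finset.sum_comm]
        exact e1 _
    _ = _ := by
        refine Finset.sum_congr rfl fun i hi => Finset.sum_congr rfl fun j hj => ?_
        rw [Finset.mem_Ico] at hi
        rw [Finset.mem_Icc] at hj
        rw [Finset.sum_mul]
        refine Finset.sum_congr rfl fun e _ => ?_
        rw [← Finset.mul_sum, ← Finset.mul_sum]
        refine congrArg _ (congrArg _ ?_)
        refine Finset.sum_nbij' (fun r => L + r - j) (fun r => r + j - L) ?_ ?_ ?_ ?_ ?_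
        · intro r hr; rw [Finset.mem_range] at hr; rw [Finset.mem_Ico]; omega
        · intro r hr; rw [Finset.mem_Ico] at hr; rw [Finset.mem_range]; omega
        · intro r hr; show L + r - j + j - L = r; omega
        · intro r hr; rw [Finset.mem_Ico] at hr; show L + (r + j - L) - j = r; omega
        · intro r _; rfl

end Pool.Agent.H19.EX
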