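import Pool.Agent.H98.EX.PTargets
import Pool.Agent.H98.SLN.INR

/-! # Neutral stretches: basic lemmas for the rows PE0 and PE1 of the board exa_modules -/

set_option autoImplicit false

open MeasureTheory ProbabilityTheory Filter Topology
open scoped ENNReal
open Pool.Agent.H95 Pool.Agent.H95.Cop
open Pool.Agent.H55.CG (Mo)
open Pool.Agent.H96.Cop (pk lint_mul_shift)
open Pool.Agent.H99.CE (PF WR)
open Pool.Agent.H98.SLN (kt VB TS RG)
open Pool.Agent.H98.EX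

namespace Pool.Agent.H19.EX

theorem meas_H (a b : ℕ) : Measurable (fun x : ℕ → ℝ => H x a b) := by
  unfold H
  exact Finset.measurable_sum _ fun i _ => measurable_pi_apply i

theorem dep_H (a b : ℕ) (x x' : ℕ → ℝ) (h : ∀ i < b, x i = x' i) : H x a b = H x' a b := by
  unfold H
  exact Finset.sum_congr rfl fun i hi => h i (Finset.mem_Ico.1 hi).2

theorem meas_be (a b : ℕ) : Measurable (fun x : ℕ → ℝ => be x a b) := by
  unfold be
  exact ENNReal.measurable_ofReal.comp (Real.measurable_exp.comp ((meas_H a b).div_const 2).neg)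

theorem dep_be (a b : ℕ) : DepLt b (fun x : ℕ → ℝ => be x a b) := by
  intro x x' h
  show be x a b = be x' a b
  unfold be
  rw [dep_H a b x x' h]

theorem be_shift (x : ℕ → ℝ) (t a b : ℕ) : be (shift t x) a b = be x (a + t) (b + t) := by
  unfold be; rw [H_shift]

theorem meas_Sy (k : ℕ) (ϑ : ℝ) (a b : ℕ) : Measurable (fun x : ℕ → ℝ => Sy k ϑ x a b) := by
  unfold Sy
  exact ((meas_H a b).div_const 2).add_const _

theorem dep_Sy (k : ℕ) (ϑ : ℝ) (a b : ℕ) (x x' : ℕ → ℝ) (h : ∀ i < b, x i = x' i) :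
    Sy k ϑ x a b = Sy k ϑ x' a b := by
  unfold Sy
  rw [dep_H a b x x' h]

theorem Sy_shift (k : ℕ) (ϑ : ℝ) (x : ℕ → ℝ) (t a b : ℕ) :
    Sy k ϑ (shift t x) a b = Sy k ϑ x (a + t) (b + t) := by
  unfold Sy; rw [H_shift]; push_cast; ring

theorem Sy_add (k : ℕ) (ϑ : ℝ) (x : ℕ → ℝ) {a b c : ℕ} (hab : a ≤ b) (hbc : b ≤ c) :
    Sy k ϑ x a c = Sy k ϑ x a b + Sy k ϑ x b c := by
  unfold Sy
  have h1 : H x a c = H x a b + H x b c := by
    unfold H; exact (Finset.sum_Ico_consecutive _ hab hbc).symm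
  rw [h1]; ring

/-- the sum of the exponents of three blocks -/
theorem Sy_three (k : ℕ) (ϑ : ℝ) (x : ℕ → ℝ) (e s m : ℕ) :
    ENNReal.ofReal (Sy k ϑ x 0 (m + (s + e))) ≤ ENNReal.ofReal |Sy k ϑ x 0 e| +
      (ENNReal.ofReal (Sy k ϑ (shift e x) 0 s) +
        ENNReal.ofReal |Sy k ϑ (shift (s + e) x) 0 m|) := by
  rw [Sy_shift, Sy_shift, Nat.zero_add, Nat.zero_add,
    Sy_add k ϑ x (Nat.zero_le (s + e)) (Nat.le_add_left (s + e) m),
    Sy_add k ϑ x (Nat.zero_le e) (Nat.le_add_left e s), add_assoc]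
  refine ENNReal.ofReal_add_le.trans (add_le_add (ENNReal.ofReal_le_ofReal (le_abs_self _)) ?_)
  exact ENNReal.ofReal_add_le.trans (add_le_add le_rfl
    (ENNReal.ofReal_le_ofReal (le_abs_self _)))

theorem wr_wc (K : PMF ℕ) (k : ℕ) : WR (wc K k) := by
  intro n
  unfold wc
  by_cases hn : n ≤ k
  · simp only [if_pos hn]
    refine ⟨?_, ?_, fun x => ?_⟩
    · exact (ENNReal.measurable_ofReal.comp
        (Real.measurable_cosh.comp ((meas_H 0 n).div_const 2))).const_mul _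
    · intro x x' h
      simp only
      rw [dep_H 0 n x x' h]
    · exact ENNReal.mul_ne_top (by unfold pk; exact ENNReal.ofReal_ne_top) ENNReal.ofReal_ne_top
  · simp only [if_neg hn]
    exact ⟨measurable_const, fun _ _ _ => rfl, fun _ => ENNReal.zero_ne_top⟩

/-- three independent blocks -/
theorem three (ν : Measure ℝ) [IsProbabilityMeasure ν] {e s : ℕ} {F1 F2 F3 : (ℕ → ℝ) → ℝ≥0∞}
    (h1 : DepLt e F1) (m1 : Measurable F1) (h2 : DepLt s F2) (m2 : Measurable F2)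
    (m3 : Measurable F3) :
    ∫⁻ x, F1 x * (F2 (shift e x) * F3 (shift (s + e) x)) ∂(iid ν) =
      (∫⁻ x, F1 x ∂(iid ν)) * ((∫⁻ x, F2 x ∂(iid ν)) * ∫⁻ x, F3 x ∂(iid ν)) := by
  have e1 := lint_mul_shift ν (t := e) (f := F1) (g := fun y => F2 y * F3 (shift s y)) h1 m1
    (m2.mul (m3.comp (measurable_shift s)))
  have e2 := lint_mul_shift ν (t := s) (f := F2) (g := F3) h2 m2 m3
  rw [← e2, ← e1]
  refine lintegral_congr fun x => ?_
  show F1 x * (F2 (shift e x) * F3 (shift (s + e) x)) =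
    F1 x * (F2 (shift e x) * F3 (shift s (shift e x)))
  rw [shift_shift]

theorem kt_nonneg (K : PMF ℕ) (k : ℕ) (t : ℝ) (m : ℕ) : 0 ≤ kt K k t m := by
  unfold kt
  split_ifs
  · exact mul_nonneg (kk_nonneg K m) (by positivity)
  · exact le_rfl

theorem VB_nonneg (K : PMF ℕ) (k : ℕ) (t : ℝ) (b : ℕ) : 0 ≤ VB K k t b := by
  unfold VB
  refine Finset.sum_nonneg fun e _ => Finset.sum_nonneg fun r _ => ?_
  split_ifs
  · exact uu_nonneg _ (kt_nonneg K k t) _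
  · exact le_rfl

theorem mo_pow {ϖ : Measure ℝ} {k : ℕ} {ϑ σ τ ω : ℝ} (hp : PB ϖ k ϑ σ τ ω) {v : ℝ} (hv : |v| ≤ 2)
    (e : ℕ) : Mo ϖ v ^ e ≤ Real.exp ((ϑ * (2 * v ^ 2 - v / 2 + 2 * σ * v) + τ) * ((e : ℝ) / k)) := by
  have h0 : 0 ≤ Mo ϖ v := integral_nonneg fun z => (Real.exp_pos _).le
  have hk : (0 : ℝ) < k := by exact_mod_cast hp.k1
  have h1 := hp.ep.up v hv
  have h2 : Mo ϖ v ^ e = (Mo ϖ v ^ k) ^ ((e : ℝ) / k) := by
    rw [← Real.rpow_natCast (Mo ϖ v) k, ← Real.rpow_mul h0, mul_div_cancel₀ _ hk.ne',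
      Real.rpow_natCast]
  rw [h2, Real.exp_mul]
  exact Real.rpow_le_rpow (pow_nonneg h0 _) h1 (by positivity)

/-- exponential moments of the exponents with the boundary weight -/
theorem lint_exp {ϖ : Measure ℝ} {k : ℕ} {ϑ σ τ ω : ℝ} (hp : PB ϖ k ϑ σ τ ω) {v : ℝ}
    (hv : |v| ≤ 2) (e : ℕ) : ∫⁻ x : ℕ → ℝ, ENNReal.ofReal (Real.exp (v * H x 0 e)) ∂(iid ϖ) ≤
      ENNReal.ofReal (Real.exp ((ϑ * (2 * v ^ 2 - v / 2 + 2 * σ * v) + τ) * ((e : ℝ) / k))) := by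
  have hprob : IsProbabilityMeasure ϖ := hp.ep.prob
  rw [(Pool.Agent.H98.SLN.pf_EXM ϖ hp.ep.exp 0 e le_rfl).2 v]
  exact ENNReal.ofReal_le_ofReal (mo_pow hp hv e)

/-- the mean of the boundary weights -/
theorem mean_be {ϖ : Measure ℝ} {k : ℕ} {ϑ σ τ ω : ℝ} (hp : PB ϖ k ϑ σ τ ω) {e : ℕ} (he : e ≤ k) :
    ∫⁻ x, be x 0 e ∂(iid ϖ) ≤ ENNReal.ofReal (Real.exp ((ϑ / 2 + τ) * e / k + ϑ / 2)) := by
  have hk : (0 : ℝ) < k := by exact_mod_cast hp.k1
  have h1 : ∀ x : ℕ → ℝ, be x 0 e = ENNReal.ofReal (Real.exp (-1 / 2 * H x 0 e)) := by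
    intro x; unfold be; congr 2; ring
  simp only [h1]
  refine (lint_exp hp (v := -1 / 2) (by rw [abs_le]; constructor <;> norm_num) e).trans
    (ENNReal.ofReal_le_ofReal (Real.exp_le_exp.2 ?_))
  have hu0 : 0 ≤ (e : ℝ) / k := by positivity
  have hu1 : (e : ℝ) / k ≤ 1 := by
    rw [div_le_one hk]; exact_mod_cast he
  have hσ := abs_le.1 (hp.σω.trans (by linarith [hp.ω1] : ω / 64 ≤ 1 / 64))
  rw [mul_div_assoc]
  generalize (e : ℝ) / k = u at hu0 hu1 ⊢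
  have h2 : 0 ≤ u * ϑ := mul_nonneg hu0 hp.ϑ0.le
  have h3 : u * ϑ ≤ ϑ := by
    have := mul_le_mul_of_nonneg_right hu1 hp.ϑ0.le
    linarith
  have h4 : u * ϑ * (-σ) ≤ u * ϑ * (1 / 64) := mul_le_mul_of_nonneg_left (by linarith [hσ.1]) h2
  have h5 := hp.ϑ0
  nlinarith

/-- the mean of the modulus of the exponent with the boundary weight -/
theorem mean_Sbe {ϖ : Measure ℝ} {k : ℕ} {ϑ σ τ ω : ℝ} (hp : PB ϖ k ϑ σ τ ω) {e : ℕ} (he : e ≤ k) :
    ∫⁻ x, ENNReal.ofReal |Sy k ϑ x 0 e| * be x 0 e ∂(iid ϖ) ≤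
      ENNReal.ofReal (8 * Real.exp ((ϑ / 2 + τ) * e / k + ϑ / 2)) := by
  have hk : (0 : ℝ) < k := by exact_mod_cast hp.k1
  have hu0 : 0 ≤ (e : ℝ) / k := by positivity
  have hu1 : (e : ℝ) / k ≤ 1 := by
    rw [div_le_one hk]; exact_mod_cast he
  have hσ := abs_le.1 (hp.σω.trans (by linarith [hp.ω1] : ω / 64 ≤ 1 / 64))
  have hz : ∀ z : ℝ, |z| ≤ 4 * Real.exp (z / 4) + 4 * Real.exp (-(z / 4)) := by
    intro z
    have e1 := Real.add_one_le_exp (z / 4)
    have e2 := Real.add_one_le_exp (-(z / 4))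
    have e3 := Real.exp_pos (z / 4)
    have e4 := Real.exp_pos (-(z / 4))
    rw [abs_le]
    constructor <;> linarith
  have h1 : ∀ x : ℕ → ℝ, ENNReal.ofReal |Sy k ϑ x 0 e| * be x 0 e ≤
      ENNReal.ofReal (4 * Real.exp ((e : ℝ) / k * ϑ / 8)) *
        ENNReal.ofReal (Real.exp (-3 / 8 * H x 0 e)) +
      ENNReal.ofReal (4 * Real.exp (-((e : ℝ) / k * ϑ / 8))) *
        ENNReal.ofReal (Real.exp (-5 / 8 * H x 0 e)) := by
    intro x
    have e5 : Sy k ϑ x 0 e = H x 0 e / 2 + (e : ℝ) / k * ϑ / 2 := by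
      unfold Sy; push_cast; ring
    unfold be
    rw [← ENNReal.ofReal_mul (abs_nonneg _), ← ENNReal.ofReal_mul (by positivity),
      ← ENNReal.ofReal_mul (by positivity), ← ENNReal.ofReal_add (by positivity) (by positivity)]
    refine ENNReal.ofReal_le_ofReal ?_
    have e6 := mul_le_mul_of_nonneg_right (hz (Sy k ϑ x 0 e)) (Real.exp_pos (-(H x 0 e / 2))).le
    refine e6.trans (le_of_eq ?_)
    rw [add_mul, mul_assoc, mul_assoc, mul_assoc, mul_assoc, ← Real.exp_add, ← Real.exp_add,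
      ← Real.exp_add, ← Real.exp_add, e5]
    congr 3 <;> ring
  refine (lintegral_mono h1).trans ?_
  have mexp : ∀ v : ℝ, Measurable fun x : ℕ → ℝ => ENNReal.ofReal (Real.exp (v * H x 0 e)) :=
    fun v => ENNReal.measurable_ofReal.comp (Real.measurable_exp.comp ((meas_H 0 e).const_mul v))
  rw [lintegral_add_left ((mexp _).const_mul _), lintegral_const_mul _ (mexp _),
    lintegral_const_mul _ (mexp _)]
  have a1 := lint_exp hp (v := -3 / 8) (by rw [abs_le]; constructor <;> norm_num) e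
  have a2 := lint_exp hp (v := -5 / 8) (by rw [abs_le]; constructor <;> norm_num) e
  refine (add_le_add (mul_le_mul_right a1 _) (mul_le_mul_right a2 _)).trans ?_
  rw [← ENNReal.ofReal_mul (by positivity), ← ENNReal.ofReal_mul (by positivity),
    ← ENNReal.ofReal_add (by positivity) (by positivity)]
  refine ENNReal.ofReal_le_ofReal ?_
  have hmm : ∀ a b : ℝ, 4 * Real.exp a * Real.exp b = 4 * Real.exp (a + b) := fun a b => by
    rw [mul_assoc, ← Real.exp_add]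
  rw [hmm, hmm, mul_div_assoc (ϑ / 2 + τ)]
  generalize (e : ℝ) / k = u at hu0 hu1 ⊢
  have h2 : 0 ≤ u * ϑ := mul_nonneg hu0 hp.ϑ0.le
  have h3 : u * ϑ ≤ ϑ := by
    have := mul_le_mul_of_nonneg_right hu1 hp.ϑ0.le
    linarith
  have h4 : u * ϑ * (-σ) ≤ u * ϑ * (1 / 64) := mul_le_mul_of_nonneg_left (by linarith [hσ.1]) h2
  have h5 := hp.ϑ0
  have b1 : Real.exp (u * ϑ / 8 + (ϑ * (2 * (-3 / 8) ^ 2 - -3 / 8 / 2 + 2 * σ * (-3 / 8)) + τ) * u) ≤
      Real.exp ((ϑ / 2 + τ) * u + ϑ / 2) := Real.exp_le_exp.2 (by nlinarith)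
  have b2 : Real.exp (-(u * ϑ / 8) + (ϑ * (2 * (-5 / 8) ^ 2 - -5 / 8 / 2 + 2 * σ * (-5 / 8)) + τ) * u) ≤
      Real.exp ((ϑ / 2 + τ) * u + ϑ / 2) := Real.exp_le_exp.2 (by nlinarith)
  linarith

/-- sums over the stretches -/
theorem nc_int {ν : Measure ℝ} {K : PMF ℕ} {k d : ℕ} {t C : ℝ} {φ : (ℕ → ℝ) → ℝ≥0∞}
    (hPF : ∀ s, Measurable (PF (wc K k) s)) (hφ : Measurable φ) (hC : 0 ≤ C)
    (h : ∀ e < k, ∀ r < k, e ≤ d * k + r → ∫⁻ x, φ x * (be x 0 e *
      PF (wc K k) (d * k + r - e) (shift e x) * be x (d * k + r) ((d + 1) * k)) ∂(iid ν) ≤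
        ENNReal.ofReal (C * uu (kt K k t) (d * k + r - e))) :
    ∫⁻ x, φ x * NC (wc K k) be k d x ∂(iid ν) ≤ ENNReal.ofReal (C * VB K k t d) := by
  have hm : ∀ e r, Measurable fun x : ℕ → ℝ => φ x * (if e ≤ d * k + r then (be x 0 e *
      PF (wc K k) (d * k + r - e) (shift e x) * be x (d * k + r) ((d + 1) * k)) else 0) := by
    intro e r
    split_ifs
    · exact hφ.mul (((meas_be 0 e).mul ((hPF _).comp (measurable_shift e))).mul (meas_be _ _))
    · exact hφ.mul measurable_const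
  unfold NC VB
  simp only [Finset.mul_sum]
  rw [lintegral_finsetSum _ fun e _ => Finset.measurable_sum _ fun r _ => hm e r]
  have h0 : ∀ e r, 0 ≤ C * (if e ≤ d * k + r then uu (kt K k t) (d * k + r - e) else 0) := by
    intro e r
    refine mul_nonneg hC ?_
    split_ifs
    · exact uu_nonneg _ (kt_nonneg K k t) _
    · exact le_rfl
  rw [ENNReal.ofReal_sum_of_nonneg fun e _ => Finset.sum_nonneg fun r _ => h0 e r]
  refine Finset.sum_le_sum fun e he => ?_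
  rw [lintegral_finsetSum _ fun r _ => hm e r, ENNReal.ofReal_sum_of_nonneg fun r _ => h0 e r]
  refine Finset.sum_le_sum fun r hr => ?_
  rw [Finset.mem_range] at he hr
  by_cases hc : e ≤ d * k + r
  · simp only [if_pos hc]
    exact h e he r hr hc
  · simp only [if_neg hc, mul_zero, lintegral_zero]
    exact zero_le

end Pool.Agent.H19.EX
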