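import Pool.Agent.H19.EX.PBas

/-! # Row PE0 of the board exa_modules: the neutral stretches -/

set_option autoImplicit false

open MeasureTheory ProbabilityTheory Filter Topology
open scoped ENNReal
open Pool.Agent.H95 Pool.Agent.H95.Cop
open Pool.Agent.H55.CG (Mo)
open Pool.Agent.H99.CE (PF WR)
open Pool.Agent.H98.SLN (kt VB TS RG)
open Pool.Agent.H98.EX

namespace Pool.Agent.H19.EX

/-- the last step: the mass -/
theorem md_le (hMSX : T_MSX) {K : PMF ℕ} {ϖ : Measure ℝ} {α c δ r ϑ σ τ ω : ℝ} {k q : ℕ}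
    (h : PA K ϖ α c δ r ϑ σ τ ω k q) (d : ℕ) {a : ℝ} (ha : 0 ≤ a) {b : ℝ} (hb : b ≤ 2 * ϑ) :
    Real.exp ((ϑ / 2 + τ) * ((d : ℝ) + 1) + b) * a * VB K k (ϑ / k) d ≤ MD K k ϑ τ δ d * a := by
  have h1 := hMSX K α c δ r ϑ k q h.rx h.pb.ϑ0 h.pb.ϑ1 h.rϑ h.δϑ h.kϑ d
  have hTS : 0 ≤ (k : ℝ) ^ 2 / TS K k := by
    refine div_nonneg (by positivity) ?_
    unfold TS
    exact Finset.sum_nonneg fun j _ => tailK_nonneg K _
  have h2 : Real.exp b * (1 + ϑ) ≤ 1 + 8 * ϑ := by
    have hϑ := h.pb.ϑ0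
    have hϑ1 := h.pb.ϑ1
    have e1 : Real.exp b ≤ Real.exp (2 * ϑ) := Real.exp_le_exp.2 hb
    have e2 : Real.exp (2 * ϑ) ≤ 1 + 4 * ϑ := by
      have e3 : Real.exp (2 * ϑ) ≤ 1 / (1 - 2 * ϑ) := by
        rw [le_div_iff₀ (by linarith)]
        have e4 : 1 - 2 * ϑ ≤ Real.exp (-(2 * ϑ)) := by
          have := Real.add_one_le_exp (-(2 * ϑ)); linarith
        calc Real.exp (2 * ϑ) * (1 - 2 * ϑ) ≤ Real.exp (2 * ϑ) * Real.exp (-(2 * ϑ)) :=
              mul_le_mul_of_nonneg_left e4 (Real.exp_pos _).le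
          _ = 1 := by rw [← Real.exp_add, add_neg_cancel, Real.exp_zero]
      refine e3.trans ?_
      rw [div_le_iff₀ (by linarith)]
      nlinarith
    calc Real.exp b * (1 + ϑ) ≤ (1 + 4 * ϑ) * (1 + ϑ) :=
          mul_le_mul_of_nonneg_right (e1.trans e2) (by linarith)
      _ ≤ 1 + 8 * ϑ := by nlinarith
  have h3 : Real.exp ((ϑ / 2 + τ) * ((d : ℝ) + 1) + b) * a * VB K k (ϑ / k) d ≤
      Real.exp ((ϑ / 2 + τ) * ((d : ℝ) + 1) + b) * a *
        (Real.exp (64 * δ * (d + 1)) * ((1 + ϑ) * (k : ℝ) ^ 2 / TS K k)) :=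
    mul_le_mul_of_nonneg_left h1 (mul_nonneg (Real.exp_pos _).le ha)
  refine h3.trans ?_
  unfold MD VH
  have h4 : Real.exp (((d : ℝ) + 1) * (ϑ / 2 + τ + 64 * δ)) =
      Real.exp ((ϑ / 2 + τ) * ((d : ℝ) + 1)) * Real.exp (64 * δ * (d + 1)) := by
    rw [← Real.exp_add]; congr 1; ring
  rw [h4, Real.exp_add]
  have h5 : 0 ≤ Real.exp ((ϑ / 2 + τ) * ((d : ℝ) + 1)) * Real.exp (64 * δ * (d + 1)) *
      ((k : ℝ) ^ 2 / TS K k) * a := by positivity
  have h6 := mul_le_mul_of_nonneg_left h2 h5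
  refine le_trans (le_of_eq ?_) (h6.trans (le_of_eq ?_)) <;> ring

theorem pf_PE0 (hPFM : Pool.Agent.H99.CE.T_PFM) (hEXB : T_EXB) (hMPF : T_MPF) (hMSX : T_MSX) :
    T_PE0 := by
  intro K ϖ α c δ r ϑ σ τ ω k q h d
  have _ := hEXB
  have hp := h.pb
  have hprob : IsProbabilityMeasure ϖ := hp.ep.prob
  have hk : (0 : ℝ) < k := by exact_mod_cast hp.k1
  have hP := (hPFM.1 (wc K k) (wr_wc K k)).1
  have hM := hMPF K ϖ k ϑ σ τ ω hp
  have hϑ := hp.ϑ0
  have had : 0 ≤ ad ϑ ω := by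
    unfold ad
    have := hp.ω0
    positivity
  obtain ⟨E, hE⟩ : ∃ E : ℕ → ℝ, E = fun n : ℕ => Real.exp ((ϑ / 2 + τ) * (n : ℝ) / k) :=
    ⟨_, rfl⟩
  have hE0 : ∀ n, 0 < E n := fun n => by rw [hE]; exact Real.exp_pos _
  have hE1 : ∀ n : ℕ, Real.exp ((ϑ / 2 + τ) * n / k + ϑ / 2) = E n * Real.exp (ϑ / 2) := by
    intro n; rw [hE, Real.exp_add]
  have hb1 : ∀ n : ℕ, n ≤ k → ∫⁻ x, be x 0 n ∂(iid ϖ) ≤
      ENNReal.ofReal (E n * Real.exp (ϑ / 2)) := fun n hn => by
    rw [← hE1]; exact mean_be hp hn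
  have hb2 : ∀ n : ℕ, n ≤ k → ∫⁻ x, ENNReal.ofReal |Sy k ϑ x 0 n| * be x 0 n ∂(iid ϖ) ≤
      ENNReal.ofReal (8 * (E n * Real.exp (ϑ / 2))) := fun n hn => by
    rw [← hE1]; exact mean_Sbe hp hn
  have hu0 : ∀ s, 0 ≤ uu (kt K k (ϑ / k)) s := fun s => uu_nonneg _ (kt_nonneg K k _) s
  have hMH : ∀ s, MH K k ϑ τ s = E s * uu (kt K k (ϑ / k)) s := fun s => by
    unfold MH; rw [hE]
  -- the product of the three means
  have hprod : ∀ (e s m : ℕ), m + (s + e) = (d + 1) * k → ∀ a : ℝ, 0 ≤ a →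
      E e * Real.exp (ϑ / 2) * (a * (E s * uu (kt K k (ϑ / k)) s) * (E m * Real.exp (ϑ / 2))) =
      Real.exp ((ϑ / 2 + τ) * ((d : ℝ) + 1) + ϑ) * a * uu (kt K k (ϑ / k)) s := by
    intro e s m hm a _
    have e1 : (m : ℝ) + (s + e) = ((d : ℝ) + 1) * k := by exact_mod_cast hm
    have e2 : E e * E s * E m * (Real.exp (ϑ / 2) * Real.exp (ϑ / 2)) =
        Real.exp ((ϑ / 2 + τ) * ((d : ℝ) + 1) + ϑ) := by
      rw [hE]
      simp only
      rw [← Real.exp_add, ← Real.exp_add, ← Real.exp_add, ← Real.exp_add]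
      congr 1
      have e3 : (ϑ / 2 + τ) * e / k + (ϑ / 2 + τ) * s / k + (ϑ / 2 + τ) * m / k =
          (ϑ / 2 + τ) * ((m : ℝ) + (s + e)) / k := by ring
      rw [e3, e1]
      field_simp
      ring
    rw [← e2]; ring
  have hterm : ∀ e r : ℕ, e ≤ d * k + r → r < k → ∀ x : ℕ → ℝ,
      be x (d * k + r) ((d + 1) * k) = be (shift (d * k + r - e + e) x) 0 (k - r) := by
    intro e r h1 h2 x
    have h4 : d * k + r - e + e = d * k + r := by omega
    have h5 : k - r + (d * k + r) = (d + 1) * k := by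
      rw [add_mul, one_mul]; omega
    rw [h4, be_shift, Nat.zero_add, h5]
  have hlen : ∀ e r : ℕ, e ≤ d * k + r → r < k → k - r + (d * k + r - e + e) = (d + 1) * k := by
    intro e r h1 h2
    rw [add_mul, one_mul]; omega
  have hs : ∀ e r : ℕ, r < k → ((d * k + r - e : ℕ) : ℝ) / k ≤ (d : ℝ) + 1 := by
    intro e r h2
    rw [div_le_iff₀ hk]
    have h4 : d * k + r - e ≤ (d + 1) * k := by rw [add_mul, one_mul]; omega
    exact_mod_cast h4
  constructor
  · -- the mean
    have h1 := nc_int (ν := ϖ) (K := K) (k := k) (d := d) (t := ϑ / k)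
      (C := Real.exp ((ϑ / 2 + τ) * ((d : ℝ) + 1) + ϑ)) (φ := fun _ => 1)
      (fun s => (hP s).1) measurable_const (Real.exp_pos _).le (by
        intro e he r hr her
        simp only [one_mul]
        have h2 : ∀ x : ℕ → ℝ, be x 0 e * PF (wc K k) (d * k + r - e) (shift e x) *
            be x (d * k + r) ((d + 1) * k) = be x 0 e * (PF (wc K k) (d * k + r - e) (shift e x) *
              be (shift (d * k + r - e + e) x) 0 (k - r)) := by
          intro x; rw [hterm e r her hr x, mul_assoc]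
        simp only [h2]
        rw [three ϖ (dep_be 0 e) (meas_be 0 e) (hP _).2.1 (hP _).1 (meas_be 0 (k - r))]
        refine (mul_le_mul' (hb1 e he.le) (mul_le_mul' (hM (d * k + r - e)).1
          (hb1 (k - r) (Nat.sub_le _ _)))).trans ?_
        rw [← ENNReal.ofReal_mul (by rw [hMH]; exact mul_nonneg (hE0 _).le (hu0 _)),
          ← ENNReal.ofReal_mul (mul_nonneg (hE0 _).le (Real.exp_pos _).le)]
        refine ENNReal.ofReal_le_ofReal (le_of_eq ?_)
        have h3 := hprod e (d * k + r - e) (k - r) (hlen e r her hr) 1 zero_le_one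
        rw [one_mul, mul_one] at h3
        rw [hMH, h3])
    simp only [one_mul] at h1
    refine h1.trans (ENNReal.ofReal_le_ofReal ?_)
    have h2 := md_le hMSX h d (a := 1) zero_le_one (b := ϑ) (by linarith)
    rw [mul_one, mul_one] at h2
    exact h2
  · -- the mean with the exponent
    have h1 := nc_int (ν := ϖ) (K := K) (k := k) (d := d) (t := ϑ / k)
      (C := Real.exp ((ϑ / 2 + τ) * ((d : ℝ) + 1) + ϑ) * (ad ϑ ω * (d + 1) + 32))
      (φ := fun x => ENNReal.ofReal (Sy k ϑ x 0 ((d + 1) * k)))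
      (fun s => (hP s).1) (ENNReal.measurable_ofReal.comp (meas_Sy k ϑ _ _))
      (mul_nonneg (Real.exp_pos _).le (by positivity)) (by
        intro e he r hr her
        obtain ⟨s, hs'⟩ : ∃ s, s = d * k + r - e := ⟨_, rfl⟩
        obtain ⟨m, hm'⟩ : ∃ m, m = k - r := ⟨_, rfl⟩
        have hL := hlen e r her hr
        have hsk := hs e r hr
        have hbb := hterm e r her hr
        rw [← hs', ← hm'] at hL
        rw [← hs'] at hsk
        rw [← hs', ← hm'] at hbb
        rw [← hs']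
        have hmk : m ≤ k := by omega
        have h2 : ∀ x : ℕ → ℝ, ENNReal.ofReal (Sy k ϑ x 0 ((d + 1) * k)) *
            (be x 0 e * PF (wc K k) s (shift e x) * be x (d * k + r) ((d + 1) * k)) ≤
            (fun y => ENNReal.ofReal |Sy k ϑ y 0 e| * be y 0 e) x *
              (PF (wc K k) s (shift e x) * (fun y => be y 0 m) (shift (s + e) x)) +
            ((fun y => be y 0 e) x * ((fun y => ENNReal.ofReal (Sy k ϑ y 0 s) *
              PF (wc K k) s y) (shift e x) * (fun y => be y 0 m) (shift (s + e) x)) +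
            (fun y => be y 0 e) x * (PF (wc K k) s (shift e x) *
              (fun y => ENNReal.ofReal |Sy k ϑ y 0 m| * be y 0 m) (shift (s + e) x))) := by
          intro x
          have h3 := Sy_three k ϑ x e s m
          rw [hL] at h3
          refine (mul_le_mul_left h3 _).trans (le_of_eq ?_)
          rw [hbb x]
          ring
        refine (lintegral_mono h2).trans ?_
        have mS1 : ∀ n, Measurable fun y : ℕ → ℝ => ENNReal.ofReal |Sy k ϑ y 0 n| * be y 0 n :=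
          fun n => (ENNReal.measurable_ofReal.comp (meas_Sy k ϑ 0 n).abs).mul (meas_be 0 n)
        have mS2 : Measurable fun y : ℕ → ℝ => ENNReal.ofReal (Sy k ϑ y 0 s) * PF (wc K k) s y :=
          (ENNReal.measurable_ofReal.comp (meas_Sy k ϑ 0 s)).mul (hP s).1
        have dS1 : DepLt e fun y : ℕ → ℝ => ENNReal.ofReal |Sy k ϑ y 0 e| * be y 0 e := by
          intro x x' hx
          show ENNReal.ofReal |Sy k ϑ x 0 e| * be x 0 e = ENNReal.ofReal |Sy k ϑ x' 0 e| * be x' 0 e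
          rw [dep_Sy k ϑ 0 e x x' hx]
          have := dep_be 0 e x x' hx
          simp only at this
          rw [this]
        have dS2 : DepLt s fun y : ℕ → ℝ => ENNReal.ofReal (Sy k ϑ y 0 s) * PF (wc K k) s y := by
          intro x x' hx
          show ENNReal.ofReal (Sy k ϑ x 0 s) * PF (wc K k) s x =
            ENNReal.ofReal (Sy k ϑ x' 0 s) * PF (wc K k) s x'
          rw [dep_Sy k ϑ 0 s x x' hx, (hP s).2.1 x x' hx]
        have mt : ∀ (F1 F2 F3 : (ℕ → ℝ) → ℝ≥0∞), Measurable F1 → Measurable F2 → Measurable F3 →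
            Measurable fun x => F1 x * (F2 (shift e x) * F3 (shift (s + e) x)) :=
          fun F1 F2 F3 m1 m2 m3 => m1.mul ((m2.comp (measurable_shift e)).mul
            (m3.comp (measurable_shift (s + e))))
        rw [lintegral_add_left (mt _ _ _ (mS1 e) (hP s).1 (meas_be 0 m)),
          lintegral_add_left (mt _ _ _ (meas_be 0 e) mS2 (meas_be 0 m)),
          three ϖ dS1 (mS1 e) (hP s).2.1 (hP s).1 (meas_be 0 m),
          three ϖ (dep_be 0 e) (meas_be 0 e) dS2 mS2 (meas_be 0 m),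
          three ϖ (dep_be 0 e) (meas_be 0 e) (hP s).2.1 (hP s).1 (mS1 m)]
        have hb3 := hM s
        refine (add_le_add (mul_le_mul' (hb2 e he.le) (mul_le_mul' hb3.1 (hb1 m hmk)))
          (add_le_add (mul_le_mul' (hb1 e he.le) (mul_le_mul' hb3.2.2.2 (hb1 m hmk)))
            (mul_le_mul' (hb1 e he.le) (mul_le_mul' hb3.1 (hb2 m hmk))))).trans ?_
        have p1 : 0 ≤ MH K k ϑ τ s := by rw [hMH]; exact mul_nonneg (hE0 _).le (hu0 _)
        have p2 : 0 ≤ E e * Real.exp (ϑ / 2) := mul_nonneg (hE0 _).le (Real.exp_pos _).le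
        have p3 : 0 ≤ E m * Real.exp (ϑ / 2) := mul_nonneg (hE0 _).le (Real.exp_pos _).le
        have p4 : 0 ≤ (ad ϑ ω * (s / k) + 4) := by positivity
        rw [← ENNReal.ofReal_mul p1, ← ENNReal.ofReal_mul (mul_nonneg p4 p1),
          ← ENNReal.ofReal_mul p1, ← ENNReal.ofReal_mul (by positivity),
          ← ENNReal.ofReal_mul p2, ← ENNReal.ofReal_mul p2,
          ← ENNReal.ofReal_add (by positivity) (by positivity),
          ← ENNReal.ofReal_add (by positivity) (by positivity)]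
        refine ENNReal.ofReal_le_ofReal ?_
        have h5 := hprod e s m hL 1 zero_le_one
        rw [one_mul, mul_one] at h5
        rw [hMH]
        have h6 : 0 ≤ Real.exp ((ϑ / 2 + τ) * ((d : ℝ) + 1) + ϑ) * uu (kt K k (ϑ / k)) s :=
          mul_nonneg (Real.exp_pos _).le (hu0 s)
        have h7 : ad ϑ ω * (s / k) + 20 ≤ ad ϑ ω * (d + 1) + 32 := by
          have := mul_le_mul_of_nonneg_left hsk had
          linarith
        have h8 := mul_le_mul_of_nonneg_left h7 h6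
        have h9 : 8 * (E e * Real.exp (ϑ / 2)) *
              (E s * uu (kt K k (ϑ / k)) s * (E m * Real.exp (ϑ / 2))) +
            (E e * Real.exp (ϑ / 2) * ((ad ϑ ω * (s / k) + 4) *
              (E s * uu (kt K k (ϑ / k)) s) * (E m * Real.exp (ϑ / 2))) +
            E e * Real.exp (ϑ / 2) * (E s * uu (kt K k (ϑ / k)) s *
              (8 * (E m * Real.exp (ϑ / 2))))) =
            E e * Real.exp (ϑ / 2) * (E s * uu (kt K k (ϑ / k)) s * (E m * Real.exp (ϑ / 2))) *
              (ad ϑ ω * (s / k) + 20) := by ring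
        rw [h9, h5]
        refine h8.trans (le_of_eq ?_)
        ring)
    refine h1.trans (ENNReal.ofReal_le_ofReal ?_)
    exact md_le hMSX h d (a := ad ϑ ω * (d + 1) + 32) (by positivity) (b := ϑ) (by linarith)

end Pool.Agent.H19.EX
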