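import Pool.Agent.H19.EX.PE0

/-! # Row PE1 of the board exa_modules: the stretches, with functions of the cells near their ends -/

set_option autoImplicit false

open MeasureTheory ProbabilityTheory Filter Topology
open scoped ENNReal
open Pool.Agent.H95 Pool.Agent.H95.Cop
open Pool.Agent.H55.CG (Mo)
open Pool.Agent.H99.CE (PF WR PF_zero PF_succ)
open Pool.Agent.H98.SLN (kt VB TS RG)
open Pool.Agent.H98.EX

namespace Pool.Agent.H19.EX

/-- one pair `i, j` -/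
theorem pe1_term (ν : Measure ℝ) [IsProbabilityMeasure ν] {k : ℕ} {ϑ : ℝ} {i s m g' : ℕ}
    {f g A B P : (ℕ → ℝ) → ℝ≥0∞} (mf : Measurable f) (df : DepLt i f) (f1 : ∀ x, f x ≤ 1)
    (mg : Measurable g) (g1 : ∀ x, g x ≤ 1) (mA : Measurable A) (dA : DepLt i A)
    (mB : Measurable B) (mP : Measurable P) (dP : DepLt s P) {X Y a b p q E6 : ℝ≥0∞}
    (hA : ∫⁻ x, A x ∂(iid ν) ≤ a)
    (hSA : ∫⁻ x, ENNReal.ofReal |Sy k ϑ x 0 i| * A x ∂(iid ν) ≤ E6 * a)
    (hfA : ∫⁻ x, f x * A x ∂(iid ν) ≤ X * a)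
    (hB : ∫⁻ x, B x ∂(iid ν) ≤ b)
    (hSB : ∫⁻ x, ENNReal.ofReal |Sy k ϑ x 0 m| * B x ∂(iid ν) ≤ E6 * b)
    (hgB : ∫⁻ x, g (shift g' x) * B x ∂(iid ν) ≤ Y * b)
    (hP : ∫⁻ x, P x ∂(iid ν) ≤ p)
    (hSP : ∫⁻ x, ENNReal.ofReal (Sy k ϑ x 0 s) * P x ∂(iid ν) ≤ q * p) :
    ∫⁻ x, f x * g (shift (g' + (s + i)) x) * (ENNReal.ofReal (Sy k ϑ x 0 (m + (s + i))) *
      (A x * (P (shift i x) * B (shift (s + i) x)))) ∂(iid ν) ≤
      a * (p * b) * (X * Y * q + (E6 + E6)) := by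
  have h2 : ∀ x : ℕ → ℝ, f x * g (shift (g' + (s + i)) x) *
      (ENNReal.ofReal (Sy k ϑ x 0 (m + (s + i))) *
        (A x * (P (shift i x) * B (shift (s + i) x)))) ≤
      (fun y => ENNReal.ofReal |Sy k ϑ y 0 i| * A y) x * (P (shift i x) * B (shift (s + i) x)) +
      ((fun y => f y * A y) x * ((fun y => ENNReal.ofReal (Sy k ϑ y 0 s) * P y) (shift i x) *
        (fun y => g (shift g' y) * B y) (shift (s + i) x)) +
      A x * (P (shift i x) * (fun y => ENNReal.ofReal |Sy k ϑ y 0 m| * B y)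
        (shift (s + i) x))) := by
    intro x
    simp only [shift_shift]
    have h3 := Sy_three k ϑ x i s m
    have hfg : f x * g (shift (g' + (s + i)) x) ≤ 1 := by
      calc f x * g (shift (g' + (s + i)) x) ≤ 1 * 1 := mul_le_mul' (f1 _) (g1 _)
        _ = 1 := one_mul 1
    generalize hS1 : ENNReal.ofReal |Sy k ϑ x 0 i| = S1 at h3 ⊢
    generalize hS2 : ENNReal.ofReal (Sy k ϑ (shift i x) 0 s) = S2 at h3 ⊢
    generalize hS3 : ENNReal.ofReal |Sy k ϑ (shift (s + i) x) 0 m| = S3 at h3 ⊢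
    generalize hG : g (shift (g' + (s + i)) x) = G at hfg ⊢
    generalize f x = F at hfg ⊢
    generalize A x = a1
    generalize P (shift i x) = p1
    generalize B (shift (s + i) x) = b1
    calc F * G * (ENNReal.ofReal (Sy k ϑ x 0 (m + (s + i))) * (a1 * (p1 * b1)))
        ≤ F * G * ((S1 + (S2 + S3)) * (a1 * (p1 * b1))) :=
          mul_le_mul' le_rfl (mul_le_mul' h3 le_rfl)
      _ = F * G * (S1 * a1 * (p1 * b1)) + (F * a1 * (S2 * p1 * (G * b1)) +
            F * G * (a1 * (p1 * (S3 * b1)))) := by ring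
      _ ≤ 1 * (S1 * a1 * (p1 * b1)) + (F * a1 * (S2 * p1 * (G * b1)) +
            1 * (a1 * (p1 * (S3 * b1)))) :=
          add_le_add (mul_le_mul' hfg le_rfl) (add_le_add le_rfl (mul_le_mul' hfg le_rfl))
      _ = _ := by rw [one_mul, one_mul]
  refine (lintegral_mono h2).trans ?_
  have mS : ∀ (n : ℕ) (F : (ℕ → ℝ) → ℝ≥0∞), Measurable F →
      Measurable fun y : ℕ → ℝ => ENNReal.ofReal |Sy k ϑ y 0 n| * F y :=
    fun n F hF => (ENNReal.measurable_ofReal.comp (meas_Sy k ϑ 0 n).abs).mul hF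
  have mS2 : Measurable fun y : ℕ → ℝ => ENNReal.ofReal (Sy k ϑ y 0 s) * P y :=
    (ENNReal.measurable_ofReal.comp (meas_Sy k ϑ 0 s)).mul mP
  have mFA : Measurable fun y : ℕ → ℝ => f y * A y := mf.mul mA
  have mG : Measurable fun y : ℕ → ℝ => g (shift g' y) * B y :=
    (mg.comp (measurable_shift g')).mul mB
  have dS1 : DepLt i fun y : ℕ → ℝ => ENNReal.ofReal |Sy k ϑ y 0 i| * A y := by
    intro x x' hx
    show ENNReal.ofReal |Sy k ϑ x 0 i| * A x = ENNReal.ofReal |Sy k ϑ x' 0 i| * A x'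
    rw [dep_Sy k ϑ 0 i x x' hx, dA x x' hx]
  have dS2 : DepLt s fun y : ℕ → ℝ => ENNReal.ofReal (Sy k ϑ y 0 s) * P y := by
    intro x x' hx
    show ENNReal.ofReal (Sy k ϑ x 0 s) * P x = ENNReal.ofReal (Sy k ϑ x' 0 s) * P x'
    rw [dep_Sy k ϑ 0 s x x' hx, dP x x' hx]
  have dF : DepLt i fun y : ℕ → ℝ => f y * A y := by
    intro x x' hx
    show f x * A x = f x' * A x'
    rw [df x x' hx, dA x x' hx]
  have mt : ∀ (F1 F2 F3 : (ℕ → ℝ) → ℝ≥0∞), Measurable F1 → Measurable F2 → Measurable F3 →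
      Measurable fun x => F1 x * (F2 (shift i x) * F3 (shift (s + i) x)) :=
    fun F1 F2 F3 m1 m2 m3 => m1.mul ((m2.comp (measurable_shift i)).mul
      (m3.comp (measurable_shift (s + i))))
  rw [lintegral_add_left (mt _ _ _ (mS i A mA) mP mB),
    lintegral_add_left (mt _ _ _ mFA mS2 mG),
    three ν dS1 (mS i A mA) dP mP mB,
    three ν dF mFA dS2 mS2 mG,
    three ν dA mA dP mP (mS m B mB)]
  refine (add_le_add (mul_le_mul' hSA (mul_le_mul' hP hB))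
    (add_le_add (mul_le_mul' hfA (mul_le_mul' hSP hgB))
      (mul_le_mul' hA (mul_le_mul' hP hSB)))).trans (le_of_eq ?_)
  ring

theorem wk_PF (K : PMF ℕ) (k : ℕ) (ϑ : ℝ) (s : ℕ) : ∀ x : ℕ → ℝ,
    PF (wk K k ϑ) s x = ENNReal.ofReal (uu (kt K k (ϑ / k)) s) := by
  induction s using Nat.strong_induction_on with
  | _ s ih =>
    intro x
    cases s with
    | zero => rw [PF_zero, uu_zero, ENNReal.ofReal_one]
    | succ s =>
      rw [PF_succ, uu_succ, ENNReal.ofReal_sum_of_nonneg fun j _ =>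
        mul_nonneg (kt_nonneg _ _ _ _) (uu_nonneg _ (kt_nonneg K k _) _)]
      refine Finset.sum_congr rfl fun j _ => ?_
      rw [ih (s - j) (by omega), ENNReal.ofReal_mul (kt_nonneg _ _ _ _)]
      rfl

theorem wk_NC (K : PMF ℕ) (k d : ℕ) (ϑ : ℝ) (x : ℕ → ℝ) :
    NC (wk K k ϑ) bo k d x = ENNReal.ofReal (VB K k (ϑ / k) d) := by
  have h0 : ∀ e r, 0 ≤ (if e ≤ d * k + r then uu (kt K k (ϑ / k)) (d * k + r - e) else 0) := by
    intro e r
    split_ifs
    · exact uu_nonneg _ (kt_nonneg K k _) _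
    · exact le_rfl
  unfold NC VB
  rw [ENNReal.ofReal_sum_of_nonneg fun e _ => Finset.sum_nonneg fun r _ => h0 e r]
  refine Finset.sum_congr rfl fun e _ => ?_
  rw [ENNReal.ofReal_sum_of_nonneg fun r _ => h0 e r]
  refine Finset.sum_congr rfl fun r _ => ?_
  split_ifs
  · rw [wk_PF]; unfold bo; rw [one_mul, mul_one]
  · rw [ENNReal.ofReal_zero]

theorem wk_AP_fin (K : PMF ℕ) (k R i : ℕ) (ϑ : ℝ) (x : ℕ → ℝ) :
    AP (wk K k ϑ) bo k R i x ≠ ∞ := by
  unfold AP GP bo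
  refine ENNReal.sum_ne_top.2 fun e _ => ENNReal.mul_ne_top ENNReal.one_ne_top ?_
  refine ENNReal.sum_ne_top.2 fun t _ => ENNReal.mul_ne_top ?_ ?_
  · rw [wk_PF]; exact ENNReal.ofReal_ne_top
  · unfold wk; exact ENNReal.ofReal_ne_top

theorem wk_BQ_fin (K : PMF ℕ) (k g L : ℕ) (ϑ : ℝ) (x : ℕ → ℝ) :
    BQ (wk K k ϑ) bo k g L x ≠ ∞ := by
  unfold BQ GQ bo
  refine ENNReal.sum_ne_top.2 fun e _ => ENNReal.mul_ne_top ?_ ENNReal.one_ne_top
  refine ENNReal.sum_ne_top.2 fun t _ => ENNReal.mul_ne_top ?_ ?_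
  · unfold wk; exact ENNReal.ofReal_ne_top
  · rw [wk_PF]; exact ENNReal.ofReal_ne_top

theorem pf_PE1 (hPFM : Pool.Agent.H99.CE.T_PFM) (hNCD : T_NCD) (hMPF : T_MPF) (hVAB : T_VAB)
    (hABM : T_ABM) (hMSX : T_MSX) : T_PE1 := by
  intro K ϖ α c δ r ϑ σ τ ω k q h R d hR hd f g mf df f1 mg dg g1
  have hp := h.pb
  have hprob : IsProbabilityMeasure ϖ := hp.ep.prob
  have hk : (0 : ℝ) < k := by exact_mod_cast hp.k1
  have hP := (hPFM.1 (wc K k) (wr_wc K k)).1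
  have hM := hMPF K ϖ k ϑ σ τ ω hp
  have hϑ := hp.ϑ0
  have had : 0 ≤ ad ϑ ω := by
    unfold ad
    have := hp.ω0
    positivity
  have hce : 0 ≤ ce ϑ τ R := by
    unfold ce
    have := hp.τ0
    positivity
  obtain ⟨hA, hB⟩ := hABM K ϖ k R ϑ σ τ ω hp hR
  obtain ⟨D, hD⟩ : ∃ D, D = (d + 1 - R) * k := ⟨_, rfl⟩
  have hDL : D + R * k = (d + 1) * k := by
    rw [hD, ← add_mul]; congr 1; omega
  have hw : ∀ n (x : ℕ → ℝ), k < n → wc K k n x = 0 := by
    intro n x hn; unfold wc; rw [if_neg (by omega)]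
  have hwk : ∀ n (x : ℕ → ℝ), k < n → wk K k ϑ n x = 0 := by
    intro n x hn
    unfold wk kt
    rw [if_neg (by omega), ENNReal.ofReal_zero]
  have hNC := hNCD (wc K k) be k R d hp.k1 hR hd hw (fun x t a a' => (be_shift x t a a').symm)
  have hNC0 := hNCD (wk K k ϑ) bo k R d hp.k1 hR hd hwk (fun x t a a' => rfl) 0
  rw [← hD] at hNC0 ⊢
  simp only [← hD] at hNC
  rw [wk_NC] at hNC0
  obtain ⟨aU, haU⟩ : ∃ aU : ℕ → ℝ≥0∞, aU = fun i : ℕ =>
    ENNReal.ofReal (Real.exp ((ϑ / 2 + τ) * i / k + ϑ)) * AP (wk K k ϑ) bo k R i 0 := ⟨_, rfl⟩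
  obtain ⟨bU, hbU⟩ : ∃ bU : ℕ → ℝ≥0∞, bU = fun g : ℕ =>
    ENNReal.ofReal (Real.exp ((ϑ / 2 + τ) * ((g + R * k : ℕ) : ℝ) / k + ϑ)) *
      BQ (wk K k ϑ) bo k g (g + R * k) 0 := ⟨_, rfl⟩
  obtain ⟨X, hX⟩ : ∃ X, X = ∫⁻ x, f x ∂(iid ϖ) +
    ENNReal.ofReal (Real.sqrt (Real.exp (2 * ce ϑ τ R) - 1)) *
        (∫⁻ x, f x ^ (2 : ℝ) ∂(iid ϖ)) ^ (1 / 2 : ℝ) := ⟨_, rfl⟩
  obtain ⟨Y, hY⟩ : ∃ Y, Y = ∫⁻ x, g x ∂(iid ϖ) +
    ENNReal.ofReal (Real.sqrt (Real.exp (2 * ce ϑ τ R) - 1)) *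
        (∫⁻ x, g x ^ (2 : ℝ) ∂(iid ϖ)) ^ (1 / 2 : ℝ) := ⟨_, rfl⟩
  rw [← hX, ← hY]
  have hu0 : ∀ s, 0 ≤ uu (kt K k (ϑ / k)) s := fun s => uu_nonneg _ (kt_nonneg K k _) s
  have hMH0 : ∀ s, 0 ≤ MH K k ϑ τ s := fun s => by
    unfold MH; exact mul_nonneg (Real.exp_pos _).le (hu0 s)
  -- the terms
  have hterm : ∀ i ∈ Finset.Ico (R * k) ((R + 1) * k), ∀ j ∈ Finset.Icc i D,
      ∫⁻ x, f x * g (shift D x) * (ENNReal.ofReal (Sy k ϑ x 0 ((d + 1) * k)) *
        (AP (wc K k) be k R i x * (PF (wc K k) (j - i) (shift i x) *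
          BQ (wc K k) be k (D - j) ((d + 1) * k - j) (shift j x)))) ∂(iid ϖ) ≤
      aU i * (ENNReal.ofReal (MH K k ϑ τ (j - i)) * bU (D - j)) *
        (X * Y * ENNReal.ofReal (ad ϑ ω * (d + 1) + 4) + ENNReal.ofReal (Real.exp (2 * R + 8))) := by
    intro i hi j hj
    rw [Finset.mem_Ico] at hi
    rw [Finset.mem_Icc] at hj
    obtain ⟨mA, dA, lA, iA, sA⟩ := hA i hi.1 hi.2
    obtain ⟨mB, lB, iB, sB⟩ := hB (D - j)
    have e1 : (d + 1) * k - j = D - j + R * k := by omega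
    have e2 : j - i + i = j := by omega
    have e3 : D - j + (j - i + i) = D := by omega
    have e4 : D - j + R * k + (j - i + i) = (d + 1) * k := by omega
    rw [e1]
    have iA' : ∫⁻ x, AP (wc K k) be k R i x ∂(iid ϖ) ≤ aU i := by rw [haU]; exact iA
    have iB' : ∫⁻ x, BQ (wc K k) be k (D - j) (D - j + R * k) x ∂(iid ϖ) ≤ bU (D - j) := by
      rw [hbU]; exact iB
    have hAf : ∫⁻ x, AP (wc K k) be k R i x ∂(iid ϖ) ≠ ∞ := by
      refine ne_top_of_le_ne_top ?_ iA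
      exact ENNReal.mul_ne_top ENNReal.ofReal_ne_top (wk_AP_fin _ _ _ _ _ _)
    have hBf : ∫⁻ x, BQ (wc K k) be k (D - j) (D - j + R * k) x ∂(iid ϖ) ≠ ∞ := by
      refine ne_top_of_le_ne_top ?_ iB
      exact ENNReal.mul_ne_top ENNReal.ofReal_ne_top (wk_BQ_fin _ _ _ _ _ _)
    have vA := hVAB (iid ϖ) (ce ϑ τ R) _ f hce mA mf f1 lA hAf
    have vB := hVAB (iid ϖ) (ce ϑ τ R) _ (fun x => g (shift (D - j) x)) hce mB
      (mg.comp (measurable_shift _)) (fun x => g1 _) lB hBf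
    have m1 : ∫⁻ x, g (shift (D - j) x) ∂(iid ϖ) = ∫⁻ x, g x ∂(iid ϖ) :=
      (measurePreserving_shift ϖ (D - j)).lintegral_comp mg
    have m2 : ∫⁻ x, g (shift (D - j) x) ^ (2 : ℝ) ∂(iid ϖ) = ∫⁻ x, g x ^ (2 : ℝ) ∂(iid ϖ) :=
      (measurePreserving_shift ϖ (D - j)).lintegral_comp (f := fun x => g x ^ (2 : ℝ))
        (mg.pow_const _)
    rw [← hX] at vA
    rw [m1, m2, ← hY] at vB
    have hq : ad ϑ ω * (((j - i : ℕ) : ℝ) / k) + 4 ≤ ad ϑ ω * (d + 1) + 4 := by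
      have e5 : ((j - i : ℕ) : ℝ) / k ≤ (d : ℝ) + 1 := by
        rw [div_le_iff₀ hk]
        have e6 : j - i ≤ (d + 1) * k := by omega
        exact_mod_cast e6
      have := mul_le_mul_of_nonneg_left e5 had
      linarith
    have hPj := hM (j - i)
    have hSP : ∫⁻ x, ENNReal.ofReal (Sy k ϑ x 0 (j - i)) * PF (wc K k) (j - i) x ∂(iid ϖ) ≤
        ENNReal.ofReal (ad ϑ ω * (d + 1) + 4) * ENNReal.ofReal (MH K k ϑ τ (j - i)) := by
      rw [← ENNReal.ofReal_mul (by positivity)]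
      exact hPj.2.2.2.trans (ENNReal.ofReal_le_ofReal
        (mul_le_mul_of_nonneg_right hq (hMH0 _)))
    have sA' : ∫⁻ x, ENNReal.ofReal |Sy k ϑ x 0 i| * AP (wc K k) be k R i x ∂(iid ϖ) ≤
        ENNReal.ofReal (Real.exp (2 * R + 6)) * aU i := by rw [haU]; exact sA
    have sB' : ∫⁻ x, ENNReal.ofReal |Sy k ϑ x 0 (D - j + R * k)| *
        BQ (wc K k) be k (D - j) (D - j + R * k) x ∂(iid ϖ) ≤
        ENNReal.ofReal (Real.exp (2 * R + 6)) * bU (D - j) := by rw [hbU]; exact sB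
    have key := pe1_term ϖ (k := k) (ϑ := ϑ) (i := i) (s := j - i) (m := D - j + R * k)
      (g' := D - j) mf (df.mono hi.1) f1 mg g1 mA dA mB (hP (j - i)).1 (hP (j - i)).2.1
      iA' sA' (vA.trans (mul_le_mul' le_rfl iA')) iB' sB' (vB.trans (mul_le_mul' le_rfl iB'))
      hPj.1 hSP
    rw [e3, e4, e2] at key
    refine key.trans (mul_le_mul' le_rfl (add_le_add le_rfl ?_))
    rw [← ENNReal.ofReal_add (Real.exp_pos _).le (Real.exp_pos _).le]
    refine ENNReal.ofReal_le_ofReal ?_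
    have e7 : Real.exp (2 * (R : ℝ) + 8) = Real.exp (2 * R + 6) * Real.exp 2 := by
      rw [← Real.exp_add]; congr 1; ring
    have e8 : (2 : ℝ) ≤ Real.exp 2 := by
      have := Real.add_one_le_exp (2 : ℝ); linarith
    rw [e7, ← mul_two]
    exact mul_le_mul_of_nonneg_left e8 (Real.exp_pos _).le
  -- the sum of the weights
  have hsum : ∑ i ∈ Finset.Ico (R * k) ((R + 1) * k), ∑ j ∈ Finset.Icc i D,
      aU i * (ENNReal.ofReal (MH K k ϑ τ (j - i)) * bU (D - j)) ≤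
      ENNReal.ofReal (MD K k ϑ τ δ d) := by
    have e1 : ∀ i ∈ Finset.Ico (R * k) ((R + 1) * k), ∀ j ∈ Finset.Icc i D,
        aU i * (ENNReal.ofReal (MH K k ϑ τ (j - i)) * bU (D - j)) =
        ENNReal.ofReal (Real.exp ((ϑ / 2 + τ) * ((d : ℝ) + 1) + 2 * ϑ)) *
          (AP (wk K k ϑ) bo k R i 0 * (PF (wk K k ϑ) (j - i) (shift i 0) *
            BQ (wk K k ϑ) bo k (D - j) ((d + 1) * k - j) (shift j 0))) := by
      intro i hi j hj
      rw [Finset.mem_Ico] at hi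
      rw [Finset.mem_Icc] at hj
      have e2 : (d + 1) * k - j = D - j + R * k := by omega
      have e3 : (i : ℝ) + ((j - i : ℕ) : ℝ) + ((D - j + R * k : ℕ) : ℝ) = ((d : ℝ) + 1) * k := by
        have : i + (j - i) + (D - j + R * k) = (d + 1) * k := by omega
        exact_mod_cast this
      have e4 : Real.exp ((ϑ / 2 + τ) * ((d : ℝ) + 1) + 2 * ϑ) =
          Real.exp ((ϑ / 2 + τ) * i / k + ϑ) * (Real.exp ((ϑ / 2 + τ) * ((j - i : ℕ) : ℝ) / k) *
            Real.exp ((ϑ / 2 + τ) * ((D - j + R * k : ℕ) : ℝ) / k + ϑ)) := by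
        rw [← Real.exp_add, ← Real.exp_add]
        congr 1
        have e5 : (ϑ / 2 + τ) * i / k + ϑ + ((ϑ / 2 + τ) * ((j - i : ℕ) : ℝ) / k +
            ((ϑ / 2 + τ) * ((D - j + R * k : ℕ) : ℝ) / k + ϑ)) =
            (ϑ / 2 + τ) * ((i : ℝ) + ((j - i : ℕ) : ℝ) + ((D - j + R * k : ℕ) : ℝ)) / k +
              2 * ϑ := by ring
        rw [e5, e3]
        field_simp
      have e6 : shift i (0 : ℕ → ℝ) = 0 := rfl
      have e7 : shift j (0 : ℕ → ℝ) = 0 := rfl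
      rw [e2, e4, e6, e7, haU, hbU, wk_PF, ENNReal.ofReal_mul (Real.exp_pos _).le,
        ENNReal.ofReal_mul (Real.exp_pos _).le]
      unfold MH
      rw [ENNReal.ofReal_mul (Real.exp_pos _).le]
      simp only
      ring
    have e9 : ∑ i ∈ Finset.Ico (R * k) ((R + 1) * k), ∑ j ∈ Finset.Icc i D,
        aU i * (ENNReal.ofReal (MH K k ϑ τ (j - i)) * bU (D - j)) =
        ENNReal.ofReal (Real.exp ((ϑ / 2 + τ) * ((d : ℝ) + 1) + 2 * ϑ)) *
          ENNReal.ofReal (VB K k (ϑ / k) d) := by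
      rw [hNC0, Finset.mul_sum]
      refine Finset.sum_congr rfl fun i hi => ?_
      rw [Finset.mul_sum]
      exact Finset.sum_congr rfl fun j hj => e1 i hi j hj
    rw [e9, ← ENNReal.ofReal_mul (Real.exp_pos _).le]
    refine ENNReal.ofReal_le_ofReal ?_
    have e10 := md_le hMSX h d (a := 1) zero_le_one (b := 2 * ϑ) le_rfl
    rw [mul_one, mul_one] at e10
    exact e10
  -- the sum of the terms
  have hmt : ∀ i ∈ Finset.Ico (R * k) ((R + 1) * k), ∀ j : ℕ,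
      Measurable fun x : ℕ → ℝ => f x * g (shift D x) *
      (ENNReal.ofReal (Sy k ϑ x 0 ((d + 1) * k)) *
        (AP (wc K k) be k R i x * (PF (wc K k) (j - i) (shift i x) *
          BQ (wc K k) be k (D - j) (D - j + R * k) (shift j x)))) := by
    intro i hi j
    rw [Finset.mem_Ico] at hi
    have mA := (hA i hi.1 hi.2).1
    exact (mf.mul (mg.comp (measurable_shift D))).mul
      ((ENNReal.measurable_ofReal.comp (meas_Sy k ϑ _ _)).mul
        (mA.mul (((hP (j - i)).1.comp (measurable_shift i)).mul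
          ((hB (D - j)).1.comp (measurable_shift j)))))
  calc ∫⁻ x, f x * g (shift D x) * (ENNReal.ofReal (Sy k ϑ x 0 ((d + 1) * k)) *
        NC (wc K k) be k d x) ∂(iid ϖ)
      = ∫⁻ x, ∑ i ∈ Finset.Ico (R * k) ((R + 1) * k), ∑ j ∈ Finset.Icc i D,
          f x * g (shift D x) * (ENNReal.ofReal (Sy k ϑ x 0 ((d + 1) * k)) *
            (AP (wc K k) be k R i x * (PF (wc K k) (j - i) (shift i x) *
              BQ (wc K k) be k (D - j) (D - j + R * k) (shift j x)))) ∂(iid ϖ) := by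
        refine lintegral_congr fun x => ?_
        rw [hNC x, Finset.mul_sum, Finset.mul_sum]
        refine Finset.sum_congr rfl fun i _ => ?_
        rw [Finset.mul_sum, Finset.mul_sum]
        refine Finset.sum_congr rfl fun j hj => ?_
        rw [Finset.mem_Icc] at hj
        have e1 : (d + 1) * k - j = D - j + R * k := by omega
        rw [e1]
    _ = ∑ i ∈ Finset.Ico (R * k) ((R + 1) * k), ∑ j ∈ Finset.Icc i D,
          ∫⁻ x, f x * g (shift D x) * (ENNReal.ofReal (Sy k ϑ x 0 ((d + 1) * k)) *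
            (AP (wc K k) be k R i x * (PF (wc K k) (j - i) (shift i x) *
              BQ (wc K k) be k (D - j) (D - j + R * k) (shift j x)))) ∂(iid ϖ) := by
        rw [lintegral_finsetSum _ fun i hi => Finset.measurable_sum _ fun j _ => hmt i hi j]
        refine Finset.sum_congr rfl fun i hi => ?_
        rw [lintegral_finsetSum _ fun j _ => hmt i hi j]
    _ ≤ ∑ i ∈ Finset.Ico (R * k) ((R + 1) * k), ∑ j ∈ Finset.Icc i D,
          aU i * (ENNReal.ofReal (MH K k ϑ τ (j - i)) * bU (D - j)) *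
            (X * Y * ENNReal.ofReal (ad ϑ ω * (d + 1) + 4) +
              ENNReal.ofReal (Real.exp (2 * R + 8))) := by
        refine Finset.sum_le_sum fun i hi => Finset.sum_le_sum fun j hj => ?_
        have h1 := hterm i hi j hj
        rw [Finset.mem_Icc] at hj
        have e1 : (d + 1) * k - j = D - j + R * k := by omega
        rw [e1] at h1
        exact h1
    _ = (∑ i ∈ Finset.Ico (R * k) ((R + 1) * k), ∑ j ∈ Finset.Icc i D,
          aU i * (ENNReal.ofReal (MH K k ϑ τ (j - i)) * bU (D - j))) *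
            (X * Y * ENNReal.ofReal (ad ϑ ω * (d + 1) + 4) +
              ENNReal.ofReal (Real.exp (2 * R + 8))) := by
        rw [Finset.sum_mul]
        refine Finset.sum_congr rfl fun i _ => ?_
        rw [Finset.sum_mul]
    _ ≤ _ := mul_le_mul' hsum le_rfl

end Pool.Agent.H19.EX
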