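import Pool.Agent.H98.EX.LTargets

/-! # Row RTX of the board exa_modules: sums of ratios -/

set_option autoImplicit false

open MeasureTheory ProbabilityTheory Filter Topology
open scoped ENNReal
open Pool.Agent.H95 Pool.Agent.H95.Cop
open Pool.Agent.H55.CG (VV Mo)
open Pool.Agent.H98.SLN (RG TS MM YY sd)
open Pool.Agent.H98.EX

namespace Pool.Agent.H19.EX

/-- subadditivity of the fourth root -/
theorem rpow_quarter_sum {ι : Type} (F : Finset ι) (u : ι → ℝ) :
    (∑ p ∈ F, Real.exp (u p)) ^ (1 / 4 : ℝ) ≤ ∑ p ∈ F, Real.exp (1 / 4 * u p) := by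
  classical
  induction F using Finset.induction_on with
  | empty => rw [Finset.sum_empty, Finset.sum_empty, Real.zero_rpow (by norm_num)]
  | insert a s ha ih =>
    rw [Finset.sum_insert ha, Finset.sum_insert ha]
    refine (Real.rpow_add_le_add_rpow (Real.exp_pos _).le
      (Finset.sum_nonneg fun p _ => (Real.exp_pos _).le) (by norm_num) (by norm_num)).trans ?_
    refine add_le_add (le_of_eq ?_) ih
    rw [← Real.exp_mul]
    congr 1; ring

theorem pf_RTX (hEXZ : T_EXZ) : T_RTX := by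
  intro ρ _ hexp γ r0 hr0 hr1 h1 h2 F hF a b hab m hm
  have hE := fun p : ℕ × ℕ => hEXZ ρ hexp γ (1 / 4) r0 hr0 hr1 h1 h2 a b p.1 p.2 hab
  have mH : ∀ c d : ℕ, Measurable fun y : ℕ → ℝ => H y c d := by
    intro c d
    unfold H
    exact Finset.measurable_sum _ fun i _ => measurable_pi_apply i
  have hS : MeasurableSet {y : ℕ → ℝ | m < RT F y a b} := by
    refine measurableSet_lt measurable_const ?_
    unfold RT
    exact Finset.measurable_sum _ fun p _ => Real.measurable_exp.comp ((mH _ _).sub (mH _ _))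
  obtain ⟨g, hg⟩ : ∃ g : (ℕ → ℝ) → ℝ, g = fun y => m ^ (-(1 / 4) : ℝ) * ∑ p ∈ F,
      Real.exp (γ * H y a (b + 1) + 1 / 4 * (H y p.1 (p.2 + 1) - H y a (b + 1))) := ⟨_, rfl⟩
  have hgi : Integrable g (iid ρ) := by
    rw [hg]
    refine Integrable.const_mul ?_ _
    exact integrable_finsetSum _ fun p hp => (hE p (hF p hp)).1
  have hm4 : 0 < m ^ (-(1 / 4) : ℝ) := Real.rpow_pos_of_pos hm _
  have hg0 : ∀ y, 0 ≤ g y := by
    intro y
    rw [hg]
    exact mul_nonneg hm4.le (Finset.sum_nonneg fun p _ => (Real.exp_pos _).le)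
  have hle : ∀ y ∈ {y : ℕ → ℝ | m < RT F y a b}, Real.exp (γ * H y a (b + 1)) ≤ g y := by
    intro y hy
    have hy' : m < RT F y a b := hy
    have e1 : (1 : ℝ) ≤ m ^ (-(1 / 4) : ℝ) * RT F y a b ^ (1 / 4 : ℝ) := by
      have e2 : m ^ (1 / 4 : ℝ) ≤ RT F y a b ^ (1 / 4 : ℝ) :=
        Real.rpow_le_rpow hm.le hy'.le (by norm_num)
      have e3 := mul_le_mul_of_nonneg_left e2 hm4.le
      have e4 : m ^ (-(1 / 4) : ℝ) * m ^ (1 / 4 : ℝ) = 1 := by
        rw [← Real.rpow_add hm]; norm_num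
      rw [e4] at e3
      exact e3
    have e5 : RT F y a b ^ (1 / 4 : ℝ) ≤
        ∑ p ∈ F, Real.exp (1 / 4 * (H y p.1 (p.2 + 1) - H y a (b + 1))) := by
      unfold RT
      exact rpow_quarter_sum F _
    have e6 : (1 : ℝ) ≤ m ^ (-(1 / 4) : ℝ) *
        ∑ p ∈ F, Real.exp (1 / 4 * (H y p.1 (p.2 + 1) - H y a (b + 1))) :=
      e1.trans (mul_le_mul_of_nonneg_left e5 hm4.le)
    calc Real.exp (γ * H y a (b + 1)) = Real.exp (γ * H y a (b + 1)) * 1 := (mul_one _).symm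
      _ ≤ Real.exp (γ * H y a (b + 1)) * (m ^ (-(1 / 4) : ℝ) *
          ∑ p ∈ F, Real.exp (1 / 4 * (H y p.1 (p.2 + 1) - H y a (b + 1)))) :=
          mul_le_mul_of_nonneg_left e6 (Real.exp_pos _).le
      _ = g y := by
          rw [hg, mul_left_comm, Finset.mul_sum]
          simp only [Real.exp_add]
  calc ∫ y in {y : ℕ → ℝ | m < RT F y a b}, Real.exp (γ * H y a (b + 1)) ∂(iid ρ)
      ≤ ∫ y in {y : ℕ → ℝ | m < RT F y a b}, g y ∂(iid ρ) := by
        refine integral_mono_of_nonneg (Eventually.of_forall fun y => (Real.exp_pos _).le)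
          hgi.integrableOn ?_
        exact (ae_restrict_iff' hS).2 (Eventually.of_forall hle)
    _ ≤ ∫ y, g y ∂(iid ρ) :=
        setIntegral_le_integral hgi (Eventually.of_forall hg0)
    _ = m ^ (-(1 / 4) : ℝ) * ∑ p ∈ F, ∫ y : ℕ → ℝ,
          Real.exp (γ * H y a (b + 1) + 1 / 4 * (H y p.1 (p.2 + 1) - H y a (b + 1)))
            ∂(iid ρ) := by
        rw [hg, integral_const_mul, integral_finsetSum _ fun p hp => (hE p (hF p hp)).1]
    _ ≤ m ^ (-(1 / 4) : ℝ) * ∑ p ∈ F, Mo ρ γ ^ (b + 1 - a) * r0 ^ sd a b p.1 p.2 :=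
        mul_le_mul_of_nonneg_left (Finset.sum_le_sum fun p hp => (hE p (hF p hp)).2) hm4.le
    _ = Mo ρ γ ^ (b + 1 - a) * (m ^ (-(1 / 4) : ℝ) * ∑ p ∈ F, r0 ^ sd a b p.1 p.2) := by
        rw [← Finset.mul_sum]; ring

end Pool.Agent.H19.EX
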