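import Pool.Agent.H98.EX.LTargets
import Pool.Agent.H37.SLN.W1D

/-! # Row WXD of the board exa_modules: deterministic properties of the functional of a box -/

set_option autoImplicit false

open MeasureTheory ProbabilityTheory Filter Topology
open scoped ENNReal
open Pool.Agent.H95 Pool.Agent.H95.Cop
open Pool.Agent.H55.CG (VV Mo)
open Pool.Agent.H98.CE (pc WB HK OBJ PX)
open Pool.Agent.H98.SLN (RG TS MM YY sd)
open Pool.Agent.H98.EX

namespace Pool.Agent.H19.EX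

namespace WXD

open Pool.Agent.H37.SLN.W1D (H_congr meas_H cell_le YY_congr meas_YY)

theorem mem_PQ {n D : ℕ} {p : ℕ × ℕ} (hp : p ∈ PQ n D) :
    p.1 < n ∧ p.2 < n ∧ p.1 < p.2 ∧ p.2 + 1 ≤ p.1 + D := by
  simp only [PQ, Finset.mem_filter, Finset.mem_product, Finset.mem_range] at hp
  exact ⟨hp.1.1, hp.1.2, hp.2.1, hp.2.2⟩

theorem cX_congr {k : ℕ} {ϑ : ℝ} {x x' : ℕ → ℝ} {n a b : ℕ} (h : ∀ i < n * k, x i = x' i)
    (hb : b < n) : cX k ϑ x a b = cX k ϑ x' a b := by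
  unfold cX
  show ∑ i ∈ Finset.Ico a (b + 1), yk k ϑ x i = ∑ i ∈ Finset.Ico a (b + 1), yk k ϑ x' i
  refine Finset.sum_congr rfl fun i hi => ?_
  rw [Finset.mem_Ico] at hi
  unfold yk
  rw [H_congr h (cell_le (by omega))]

theorem meas_cX (k : ℕ) (ϑ : ℝ) (a b : ℕ) : Measurable (fun x : ℕ → ℝ => cX k ϑ x a b) := by
  have h1 : (fun x : ℕ → ℝ => cX k ϑ x a b) =
      fun x : ℕ → ℝ => ∑ i ∈ Finset.Ico a (b + 1), (H x (i * k) ((i + 1) * k) / 2 + ϑ / 2) := rfl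
  rw [h1]
  refine Finset.measurable_fun_sum _ fun i _ => ?_
  exact ((meas_H _ _).div_const _).add_const _

theorem meas_gX (hUQB : Pool.Agent.H98.SLN.T_UQB) (K : PMF ℕ) (k q : ℕ) (ϑ : ℝ) (p : ℕ × ℕ) :
    MeasurableSet {x : ℕ → ℝ | gX K k q ϑ x p} := by
  unfold gX
  exact measurableSet_le ((meas_cX k ϑ p.1 p.2).sub_const _) (meas_YY hUQB K k q p.1 p.2)

theorem gX_congr (hUQB : Pool.Agent.H98.SLN.T_UQB) {K : PMF ℕ} {k q : ℕ} {ϑ : ℝ}
    {x x' : ℕ → ℝ} {n : ℕ} {p : ℕ × ℕ} (h : ∀ i < n * k, x i = x' i) (ha : p.1 < n)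
    (hb : p.2 < n) : gX K k q ϑ x p ↔ gX K k q ϑ x' p := by
  unfold gX
  rw [cX_congr h hb, YY_congr hUQB h ha hb]

theorem WX_congr (hUQB : Pool.Agent.H98.SLN.T_UQB) {K : PMF ℕ} {k q : ℕ} {r ϑ : ℝ}
    {x x' : ℕ → ℝ} {n D : ℕ} (h : ∀ i < n * k, x i = x' i) :
    WX K k q r ϑ n D x = WX K k q r ϑ n D x' := by
  classical
  unfold WX
  refine Finset.sum_congr rfl fun p hp => ?_
  obtain ⟨hp1, hp2, -, -⟩ := mem_PQ hp
  rw [cX_congr h hp2]
  exact if_congr (gX_congr hUQB h hp1 hp2) rfl rfl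

theorem meas_WX (hUQB : Pool.Agent.H98.SLN.T_UQB) (K : PMF ℕ) (k q : ℕ) (r ϑ : ℝ) (n D : ℕ) :
    Measurable (WX K k q r ϑ n D) := by
  classical
  unfold WX
  refine Finset.measurable_fun_sum _ fun p _ => ?_
  exact Measurable.ite (meas_gX hUQB K k q ϑ p)
    ((Real.measurable_exp.comp (meas_cX k ϑ p.1 p.2)).const_mul _) measurable_const

end WXD

open WXD in
/-- row WXD -/
theorem pf_WXD (hMMX : T_MMX) (hPCJ : Pool.Agent.H98.SLN.T_PCJ)
    (hUQB : Pool.Agent.H98.SLN.T_UQB) (hTLQ : Pool.Agent.H98.SLN.T_TLQ)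
    (hPCB : Pool.Agent.H98.CE.T_PCB) : T_WXD := by
  classical
  intro K α c δ r ϑ β k q hX hrk hr64 hϑ0 hϑ1 hβ n D J hD
  obtain ⟨hk, -⟩ := hTLQ K α c δ k q hX.rg
  have hr0 := hX.r0
  have hVV : 0 < VV K k := (hPCB K k hk).1
  have hpc0 : ∀ (x : ℕ → ℝ) (a b : ℕ), 0 ≤ pc K k x a b := fun x a b =>
    (((hPCB K k hk).2 a b).1 x 0).1
  -- a good pair
  have hgood : ∀ (x : ℕ → ℝ) (p : ℕ × ℕ), p ∈ PQ n D → gX K k q ϑ x p →
      cc r ϑ * Real.exp (cX k ϑ x p.1 p.2) ≤ pc K k x p.1 p.2 := by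
    intro x p hp hg
    obtain ⟨hp1, hp2, hp3, hp4⟩ := mem_PQ hp
    have hab : p.1 + 1 ≤ p.2 := by omega
    have hle : ((p.2 : ℝ) + 1 - p.1) ≤ D := by
      have : ((p.2 + 1 : ℕ) : ℝ) ≤ ((p.1 + D : ℕ) : ℝ) := by exact_mod_cast hp4
      push_cast at this
      linarith
    have h9 : 2 ^ 9 * Real.sqrt δ * ((p.2 : ℝ) + 1 - p.1) ≤ r :=
      (mul_le_mul_of_nonneg_left hle (by positivity)).trans hD
    have hM1 := hMMX K α c δ r k q hX hrk p.1 p.2 hab h9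
    have hc0 : 0 < 2 * (1 - 8 * r) := by linarith
    have hM0 : 0 < MM K k q p.1 p.2 := lt_of_lt_of_le (mul_pos hc0 hVV) hM1
    have hJ := hPCJ K k q x p.1 p.2 hk hp3 hM0
    refine le_trans ?_ hJ
    have h8 : 2 * (1 - 8 * r) ≤ MM K k q p.1 p.2 / VV K k := by
      rw [le_div_iff₀ hVV]
      exact hM1
    have h10 : Real.exp (cX k ϑ x p.1 p.2 - 3 * ϑ ^ (1 / 4 : ℝ)) ≤
        Real.exp (YY K k q x p.1 p.2) := Real.exp_le_exp.mpr hg
    have h11 : cc r ϑ * Real.exp (cX k ϑ x p.1 p.2) =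
        2 * (1 - 8 * r) * Real.exp (cX k ϑ x p.1 p.2 - 3 * ϑ ^ (1 / 4 : ℝ)) := by
      unfold cc
      rw [mul_assoc, ← Real.exp_add]
      congr 2
      ring
    rw [h11]
    exact mul_le_mul h8 h10 (Real.exp_pos _).le (hc0.le.trans h8)
  have hWB : ∀ x : ℕ → ℝ, WX K k q r ϑ n D x ≤ WB K k n x ∧ 0 ≤ WB K k n x := by
    intro x
    have h0 : ∑ p ∈ Finset.range n ×ˢ Finset.range n, pc K k x p.1 p.2 = WB K k n x := by
      unfold WB PX
      rw [Finset.sum_product, Finset.range_eq_Ico]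
    have h1 : WX K k q r ϑ n D x ≤ ∑ p ∈ PQ n D, pc K k x p.1 p.2 := by
      unfold WX
      refine Finset.sum_le_sum fun p hp => ?_
      split_ifs with hg
      · exact hgood x p hp hg
      · exact hpc0 x p.1 p.2
    have h2 : ∑ p ∈ PQ n D, pc K k x p.1 p.2 ≤
        ∑ p ∈ Finset.range n ×ˢ Finset.range n, pc K k x p.1 p.2 :=
      Finset.sum_le_sum_of_subset_of_nonneg (Finset.filter_subset _ _)
        fun p _ _ => hpc0 x p.1 p.2
    rw [← h0]
    exact ⟨h1.trans h2, Finset.sum_nonneg fun p _ => hpc0 x p.1 p.2⟩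
  have hmW := meas_WX hUQB K k q r ϑ n D
  have hset : MeasurableSet {x : ℕ → ℝ | Real.exp (β * 3) ≤ WX K k q r ϑ n D x ∧
      WX K k q r ϑ n D x < Real.exp (β * ((J : ℝ) + 1))} :=
    (measurableSet_le measurable_const hmW).inter (measurableSet_lt hmW measurable_const)
  -- the label on the event
  have hlab : ∀ x : ℕ → ℝ, Real.exp (β * 3) ≤ WX K k q r ϑ n D x →
      WX K k q r ϑ n D x < Real.exp (β * ((J : ℝ) + 1)) →
      3 ≤ ⌊Real.log (WX K k q r ϑ n D x) / β⌋₊ ∧ ⌊Real.log (WX K k q r ϑ n D x) / β⌋₊ ≤ J ∧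
      Real.exp (β * (⌊Real.log (WX K k q r ϑ n D x) / β⌋₊ : ℝ)) ≤ WX K k q r ϑ n D x := by
    intro x h1 h2
    have h0 : 0 < WX K k q r ϑ n D x := lt_of_lt_of_le (Real.exp_pos _) h1
    have h3 : β * 3 ≤ Real.log (WX K k q r ϑ n D x) := (Real.le_log_iff_exp_le h0).mpr h1
    have h4 : Real.log (WX K k q r ϑ n D x) < β * ((J : ℝ) + 1) :=
      (Real.log_lt_iff_lt_exp h0).mpr h2
    have h5 : (3 : ℝ) ≤ Real.log (WX K k q r ϑ n D x) / β := by
      rw [le_div_iff₀ hβ]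
      linarith
    have h6 : Real.log (WX K k q r ϑ n D x) / β < ((J + 1 : ℕ) : ℝ) := by
      rw [div_lt_iff₀ hβ]
      push_cast
      linarith
    have h7 := Nat.floor_le ((by norm_num : (0 : ℝ) ≤ 3).trans h5)
    rw [le_div_iff₀ hβ] at h7
    refine ⟨Nat.le_floor (by exact_mod_cast h5), ?_, ?_⟩
    · exact Nat.lt_succ_iff.mp ((Nat.floor_lt ((by norm_num : (0 : ℝ) ≤ 3).trans h5)).mpr h6)
    · rw [← Real.le_log_iff_exp_le h0, mul_comm]
      exact h7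
  refine ⟨?_, ?_, ?_, ?_, fun x => ?_⟩
  · unfold wX
    exact Measurable.ite hset hmW measurable_const
  · unfold lX
    exact Measurable.ite hset (Nat.measurable_floor.comp
      ((Real.measurable_log.comp hmW).div_const _)) measurable_const
  · intro x x' hx
    unfold wX
    rw [WX_congr hUQB hx]
  · intro x x' hx
    unfold lX
    rw [WX_congr hUQB hx]
  · obtain ⟨hW1, hW2⟩ := hWB x
    by_cases hc : Real.exp (β * 3) ≤ WX K k q r ϑ n D x ∧
        WX K k q r ϑ n D x < Real.exp (β * ((J : ℝ) + 1))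
    · obtain ⟨hl1, hl2, hl3⟩ := hlab x hc.1 hc.2
      have hw : wX K k q r ϑ β n D J x = WX K k q r ϑ n D x := by
        unfold wX
        exact if_pos hc
      have hl : lX K k q r ϑ β n D J x = ⌊Real.log (WX K k q r ϑ n D x) / β⌋₊ := by
        unfold lX
        exact if_pos hc
      rw [hw, hl]
      refine ⟨(Real.exp_pos _).le.trans hc.1, hW1, fun h => ?_, fun _ => hl3, hl2⟩
      omega
    · have hw : wX K k q r ϑ β n D J x = 0 := by
        unfold wX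
        exact if_neg hc
      have hl : lX K k q r ϑ β n D J x = 0 := by
        unfold lX
        exact if_neg hc
      rw [hw, hl]
      exact ⟨le_rfl, hW2, fun _ => rfl, fun h => absurd rfl h, Nat.zero_le _⟩

end Pool.Agent.H19.EX
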